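import Pool.Agent.Q49.NA.Ell

/-!
# The integral of the form along an analytic arc through the vertex
-/

set_option autoImplicit false

namespace Q49.NA

open Filter Set Topology MeasureTheory

theorem ratio {u v : ℝ → ℝ} {y0 : ℝ} (hu : AnalyticAt ℝ u y0) (hv : AnalyticAt ℝ v y0)
    (hle : analyticOrderAt v y0 ≤ analyticOrderAt u y0) (hne : ∃ᶠ y in 𝓝 y0, u y ≠ 0 ∨ v y ≠ 0) :
    ∃ τ : ℝ → ℝ, AnalyticAt ℝ τ y0 ∧ (∀ᶠ y in 𝓝 y0, u y = v y * τ y) ∧
      ∀ᶠ y in 𝓝[≠] y0, v y ≠ 0 := by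
  have htop : analyticOrderAt v y0 ≠ ⊤ := by
    intro h1
    rw [h1, top_le_iff] at hle
    have h2 := analyticOrderAt_eq_top.1 h1
    have h3 := analyticOrderAt_eq_top.1 hle
    refine hne ?_
    filter_upwards [h2, h3] with z h5 h6
    rw [h5, h6]
    simp
  obtain ⟨v1, hv1, h0, hv2⟩ := hv.analyticOrderAt_ne_top.1 htop
  rw [← Nat.cast_analyticOrderNatAt htop] at hle
  obtain ⟨u1, hu1, hu2⟩ := (natCast_le_analyticOrderAt hu).1 hle
  have hv1ne : ∀ᶠ z in 𝓝 y0, v1 z ≠ 0 := hv1.continuousAt.eventually_ne h0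
  refine ⟨fun y => u1 y / v1 y, hu1.div hv1 h0, ?_, ?_⟩
  · filter_upwards [hv2, hu2, hv1ne] with y h1 h2 h3
    rw [h1, h2]
    simp only [smul_eq_mul]
    field_simp
  · have h2 : ∀ᶠ z in 𝓝[≠] y0, z ≠ y0 := eventually_mem_nhdsWithin
    filter_upwards [nhdsWithin_le_nhds hv2, nhdsWithin_le_nhds hv1ne, h2] with y h1 h3 h4
    rw [h1, smul_eq_mul]
    exact mul_ne_zero (pow_ne_zero _ (sub_ne_zero.2 h4)) h3

theorem sqrt_eq {ρ v τ : ℝ} (hρ : 0 ≤ ρ) (h : ρ ^ 2 = (v * τ) ^ 4 + v ^ 4) :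
    ρ = v ^ 2 * Real.sqrt (1 + τ ^ 4) := by
  have h1 : ρ = Real.sqrt (v ^ 4 * (1 + τ ^ 4)) := by
    rw [← Real.sqrt_sq hρ, h]
    congr 1
    ring
  rw [h1, Real.sqrt_mul (by positivity), show v ^ 4 = (v ^ 2) ^ 2 by ring,
    Real.sqrt_sq (by positivity)]

/-- integration of a function which is almost everywhere a derivative -/
theorem integral_of_deriv {k G g : ℝ → ℝ} {y0 ε : ℝ}
    (hG : ∀ y, |y - y0| < ε → HasDerivAt G (g y) y)
    (hg : ∀ y, |y - y0| < ε → ContinuousAt g y)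
    (hk : ∀ y, |y - y0| < ε → y ≠ y0 → k y = - g y) {y1 y2 : ℝ} (h1 : |y1 - y0| < ε)
    (h2 : |y2 - y0| < ε) : ∫ y in y1..y2, k y = - (G y2 - G y1) := by
  have hmem : ∀ y ∈ uIcc y1 y2, |y - y0| < ε := by
    intro y hy
    have h3 : y1 ∈ Metric.ball y0 ε := by rw [Metric.mem_ball, Real.dist_eq]; exact h1
    have h4 : y2 ∈ Metric.ball y0 ε := by rw [Metric.mem_ball, Real.dist_eq]; exact h2
    have h5 : y ∈ Metric.ball y0 ε := by
      have := (convex_ball y0 ε).ordConnected.uIcc_subset h3 h4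
      exact this hy
    rw [Metric.mem_ball, Real.dist_eq] at h5
    exact h5
  have hint : IntervalIntegrable g volume y1 y2 :=
    ContinuousOn.intervalIntegrable fun y hy => (hg y (hmem y hy)).continuousWithinAt
  have h3 : ∫ y in y1..y2, k y = ∫ y in y1..y2, - g y := by
    refine intervalIntegral.integral_congr_ae ?_
    have h4 : ∀ᵐ y : ℝ, y ≠ y0 := by
      have : volume ({y0} : Set ℝ) = 0 := Real.volume_singleton
      exact (measure_eq_zero_iff_ae_notMem.1 this).mono fun y hy => hy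
    filter_upwards [h4] with y hy hy2
    exact hk y (hmem y (uIoc_subset_uIcc hy2)) hy
  rw [h3, intervalIntegral.integral_neg,
    intervalIntegral.integral_eq_sub_of_hasDerivAt (fun y hy => hG y (hmem y hy)) hint]

theorem localArc {u v ρ : ℝ → ℝ} {y0 : ℝ} (hu : AnalyticAt ℝ u y0) (hv : AnalyticAt ℝ v y0)
    (hρ : ∀ y, 0 ≤ ρ y) (h : ∀ y, ρ y ^ 2 = u y ^ 4 + v y ^ 4)
    (hne : ∃ᶠ y in 𝓝 y0, ρ y ≠ 0) :
    ∃ ε > 0, ∃ G : ℝ → ℝ,
      (∀ y, |y - y0| < ε → ρ y ≠ 0 → Lam (u y) (v y) = ((G y : ℝ) : AddCircle (2 * Q))) ∧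
      ∀ y1 y2, |y1 - y0| < ε → |y2 - y0| < ε →
        ∫ y in y1..y2, (v y * deriv u y - u y * deriv v y) / ρ y = - (G y2 - G y1) := by
  have hne' : ∃ᶠ y in 𝓝 y0, u y ≠ 0 ∨ v y ≠ 0 := by
    refine hne.mono fun y hy => ?_
    by_contra h1
    push Not at h1
    have h2 := h y
    rw [h1.1, h1.2] at h2
    refine hy (pow_eq_zero_iff two_ne_zero |>.1 (h2.trans ?_))
    norm_num
  rcases le_total (analyticOrderAt v y0) (analyticOrderAt u y0) with hle | hle
  · obtain ⟨τ, hτ, h1, h2⟩ := ratio hu hv hle hne'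
    have h3 : ∀ᶠ y in 𝓝 y0, (u y = v y * τ y) ∧ (y ≠ y0 → v y ≠ 0) ∧
        AnalyticAt ℝ τ y ∧ (∀ᶠ z in 𝓝 y, u z = v z * τ z) ∧ AnalyticAt ℝ v y := by
      filter_upwards [h1, eventually_nhdsWithin_iff.1 h2, hτ.eventually_analyticAt,
        h1.eventually_nhds, hv.eventually_analyticAt] with y h4 h5 h6 h7 h8
      exact ⟨h4, h5, h6, h7, h8⟩
    obtain ⟨ε, hε, h4⟩ := Metric.eventually_nhds_iff.1 h3
    simp only [Real.dist_eq] at h4
    refine ⟨ε, hε, fun y => - L (τ y), ?_, ?_⟩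
    · intro y hy hρy
      obtain ⟨h5, -, -, -, -⟩ := h4 hy
      have hv0 : v y ≠ 0 := by
        intro h6
        rw [h6, zero_mul] at h5
        have h7 := h y
        rw [h5, h6] at h7
        refine hρy (pow_eq_zero_iff two_ne_zero |>.1 (h7.trans ?_))
        norm_num
      rw [Lam_of_v hv0, h5, mul_div_cancel_left₀ _ hv0]
    · intro y1 y2 hy1 hy2
      refine integral_of_deriv (k := fun y => (v y * deriv u y - u y * deriv v y) / ρ y)
        (G := fun y => - L (τ y)) (g := fun y => - (w (τ y) * deriv τ y)) (y0 := y0) (ε := ε)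
        (fun y hy => ?_) (fun y hy => ?_) (fun y hy hy0 => ?_) hy1 hy2
      · exact ((L_deriv (τ y)).comp y (h4 hy).2.2.1.differentiableAt.hasDerivAt).neg
      · obtain ⟨-, -, h5, -, -⟩ := h4 hy
        exact ((w_cont.continuousAt.comp h5.continuousAt).mul h5.deriv.continuousAt).neg
      · obtain ⟨h5, h6, h7, h8, h9⟩ := h4 hy
        have hv0 := h6 hy0
        have hd : deriv u y = deriv v y * τ y + v y * deriv τ y := by
          have h10 : deriv u y = deriv (fun z => v z * τ z) y := Filter.EventuallyEq.deriv_eq h8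
          rw [h10]
          exact (h9.differentiableAt.hasDerivAt.mul h7.differentiableAt.hasDerivAt).deriv
        have hρy := h y
        rw [h5] at hρy
        rw [sqrt_eq (hρ y) hρy, hd, h5, w, neg_neg]
        have h10 := (sq_pos' (τ y)).ne'
        field_simp
        ring
  · have hne2 : ∃ᶠ y in 𝓝 y0, v y ≠ 0 ∨ u y ≠ 0 := hne'.mono fun y hy => hy.symm
    obtain ⟨τ, hτ, h1, h2⟩ := ratio hv hu hle hne2
    have h3 : ∀ᶠ y in 𝓝 y0, (v y = u y * τ y) ∧ (y ≠ y0 → u y ≠ 0) ∧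
        AnalyticAt ℝ τ y ∧ (∀ᶠ z in 𝓝 y, v z = u z * τ z) ∧ AnalyticAt ℝ u y := by
      filter_upwards [h1, eventually_nhdsWithin_iff.1 h2, hτ.eventually_analyticAt,
        h1.eventually_nhds, hu.eventually_analyticAt] with y h4 h5 h6 h7 h8
      exact ⟨h4, h5, h6, h7, h8⟩
    obtain ⟨ε, hε, h4⟩ := Metric.eventually_nhds_iff.1 h3
    simp only [Real.dist_eq] at h4
    refine ⟨ε, hε, fun y => L (τ y) - Q, ?_, ?_⟩
    · intro y hy hρy
      obtain ⟨h5, -, -, -, -⟩ := h4 hy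
      have hv0 : u y ≠ 0 := by
        intro h6
        rw [h6, zero_mul] at h5
        have h7 := h y
        rw [h5, h6] at h7
        refine hρy (pow_eq_zero_iff two_ne_zero |>.1 (h7.trans ?_))
        norm_num
      rw [Lam_of_u hv0, h5, mul_div_cancel_left₀ _ hv0]
    · intro y1 y2 hy1 hy2
      refine integral_of_deriv (k := fun y => (v y * deriv u y - u y * deriv v y) / ρ y)
        (G := fun y => L (τ y) - Q) (g := fun y => w (τ y) * deriv τ y) (y0 := y0) (ε := ε)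
        (fun y hy => ?_) (fun y hy => ?_) (fun y hy hy0 => ?_) hy1 hy2
      · exact ((L_deriv (τ y)).comp y (h4 hy).2.2.1.differentiableAt.hasDerivAt).sub_const Q
      · obtain ⟨-, -, h5, -, -⟩ := h4 hy
        exact (w_cont.continuousAt.comp h5.continuousAt).mul h5.deriv.continuousAt
      · obtain ⟨h5, h6, h7, h8, h9⟩ := h4 hy
        have hv0 := h6 hy0
        have hd : deriv v y = deriv u y * τ y + u y * deriv τ y := by
          have h10 : deriv v y = deriv (fun z => u z * τ z) y := Filter.EventuallyEq.deriv_eq h8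
          rw [h10]
          exact (h9.differentiableAt.hasDerivAt.mul h7.differentiableAt.hasDerivAt).deriv
        have hρy := h y
        rw [h5, add_comm] at hρy
        rw [sqrt_eq (hρ y) hρy, hd, h5, w]
        have h10 := (sq_pos' (τ y)).ne'
        field_simp
        ring

end Q49.NA
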