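import Mathlib

/-!
# A regular differential form: no poles on germs of holomorphic curves
-/

set_option autoImplicit false

namespace Q49.NA

open Filter Set Topology

variable {u v R : ℂ → ℂ} {z0 : ℂ}

theorem localR_aux (hR : AnalyticAt ℂ R z0)
    (h : ∀ᶠ z in 𝓝 z0, R z ^ 2 = u z ^ 4 + v z ^ 4) {m : ℕ} {u1 v1 : ℂ → ℂ}
    (hu1 : AnalyticAt ℂ u1 z0) (hv1 : AnalyticAt ℂ v1 z0) (h0 : u1 z0 ≠ 0)
    (hu : ∀ᶠ z in 𝓝 z0, u z = (z - z0) ^ m * u1 z)
    (hv : ∀ᶠ z in 𝓝 z0, v z = (z - z0) ^ m * v1 z) :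
    ∃ H, AnalyticAt ℂ H z0 ∧ ∀ᶠ z in 𝓝 z0, v z * deriv u z - u z * deriv v z = R z * H z := by
  -- the quotient `s`
  set s : ℂ → ℂ := fun z => v1 z / u1 z with hs
  have hsa : AnalyticAt ℂ s z0 := hv1.div hu1 h0
  have hu1ne : ∀ᶠ z in 𝓝 z0, u1 z ≠ 0 := hu1.continuousAt.eventually_ne h0
  have hvs : ∀ᶠ z in 𝓝 z0, v z = u z * s z := by
    filter_upwards [hu, hv, hu1ne] with z h1 h2 h3
    rw [h1, h2, hs]
    field_simp
  have hid : AnalyticAt ℂ (fun z : ℂ => z - z0) z0 := analyticAt_id.sub analyticAt_const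
  have hua : AnalyticAt ℂ (fun z => (z - z0) ^ m * u1 z) z0 := (hid.pow m).mul hu1
  have hua' : AnalyticAt ℂ u z0 := hua.congr (by
    filter_upwards [hu] with z hz using hz.symm)
  -- `R` is divisible by `(z - z0) ^ (2 m)`
  have hR2 : ∀ᶠ z in 𝓝 z0, R z ^ 2 = (z - z0) ^ (4 * m) * (u1 z ^ 4 + v1 z ^ 4) := by
    filter_upwards [h, hu, hv] with z h1 h2 h3
    rw [h1, h2, h3]
    ring
  obtain ⟨R1, hR1, hR1e⟩ : ∃ R1, AnalyticAt ℂ R1 z0 ∧
      ∀ᶠ z in 𝓝 z0, R z = (z - z0) ^ (2 * m) * R1 z := by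
    have h1 : ((4 * m : ℕ) : ℕ∞) ≤ analyticOrderAt (R ^ 2) z0 := by
      refine (natCast_le_analyticOrderAt (hR.pow 2)).2 ⟨fun z => u1 z ^ 4 + v1 z ^ 4,
        (hu1.pow 4).add (hv1.pow 4), ?_⟩
      filter_upwards [hR2] with z hz
      exact hz
    rw [analyticOrderAt_pow hR] at h1
    have h2 : ((2 * m : ℕ) : ℕ∞) ≤ analyticOrderAt R z0 := by
      cases hN : analyticOrderAt R z0 with
      | top => exact le_top
      | coe n =>
        rw [hN] at h1
        have h3 : (4 * m : ℕ) ≤ 2 * n := by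
          have : ((4 * m : ℕ) : ℕ∞) ≤ ((2 * n : ℕ) : ℕ∞) := by
            refine h1.trans (le_of_eq ?_)
            rw [nsmul_eq_mul]
            push_cast
            rfl
          exact_mod_cast this
        have : (2 * m : ℕ) ≤ n := by omega
        exact_mod_cast this
    obtain ⟨R1, hR1, hR1e⟩ := (natCast_le_analyticOrderAt hR).1 h2
    exact ⟨R1, hR1, hR1e⟩
  set y : ℂ → ℂ := fun z => R1 z / u1 z ^ 2 with hy
  have hya : AnalyticAt ℂ y z0 := hR1.div (hu1.pow 2) (pow_ne_zero 2 h0)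
  have hRy : ∀ᶠ z in 𝓝 z0, R z = u z ^ 2 * y z := by
    filter_upwards [hu, hR1e, hu1ne] with z h1 h2 h3
    rw [h1, h2, hy]
    field_simp
    ring
  have hys : ∀ᶠ z in 𝓝 z0, y z ^ 2 = 1 + s z ^ 4 := by
    refine (AnalyticAt.frequently_eq_iff_eventually_eq (hya.pow 2)
      (analyticAt_const.add (hsa.pow 4))).1 ?_
    have h1 : ∀ᶠ z in 𝓝[≠] z0, y z ^ 2 = 1 + s z ^ 4 := by
      have h2 : ∀ᶠ z in 𝓝[≠] z0, z ≠ z0 := eventually_mem_nhdsWithin
      filter_upwards [h2, nhdsWithin_le_nhds hRy, nhdsWithin_le_nhds hvs, nhdsWithin_le_nhds h,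
        nhdsWithin_le_nhds hu, nhdsWithin_le_nhds hu1ne] with z h2 h3 h4 h5 h6 h7
      have h8 : u z ≠ 0 := by
        rw [h6]
        exact mul_ne_zero (pow_ne_zero m (sub_ne_zero.2 h2)) h7
      have h9 : u z ^ 4 * (y z ^ 2) = u z ^ 4 * (1 + s z ^ 4) := by
        rw [h3, h4] at h5
        linear_combination h5
      exact mul_left_cancel₀ (pow_ne_zero 4 h8) h9
    exact h1.frequently
  -- derivative of `v`
  have hvd : ∀ᶠ z in 𝓝 z0, deriv v z = deriv u z * s z + u z * deriv s z := by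
    filter_upwards [hvs.eventually_nhds, hua'.eventually_analyticAt, hsa.eventually_analyticAt]
      with z h1 h2 h3
    have h4 : deriv v z = deriv (fun z => u z * s z) z := Filter.EventuallyEq.deriv_eq h1
    rw [h4]
    exact (h2.differentiableAt.hasDerivAt.mul h3.differentiableAt.hasDerivAt).deriv
  have hN : ∀ᶠ z in 𝓝 z0, v z * deriv u z - u z * deriv v z = - (u z ^ 2 * deriv s z) := by
    filter_upwards [hvs, hvd] with z h1 h2
    rw [h1, h2]
    ring
  by_cases hy0 : y z0 = 0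
  · have hs0 : s z0 ≠ 0 := by
      intro h1
      have h2 := hys.self_of_nhds
      rw [hy0, h1] at h2
      norm_num at h2
    have hsne : ∀ᶠ z in 𝓝 z0, s z ≠ 0 := hsa.continuousAt.eventually_ne hs0
    have hd : ∀ᶠ z in 𝓝 z0, 2 * y z * deriv y z = 4 * s z ^ 3 * deriv s z := by
      filter_upwards [hys.eventually_nhds, hya.eventually_analyticAt, hsa.eventually_analyticAt]
        with z h1 h2 h3
      have h4 : deriv (fun z => y z ^ 2) z = deriv (fun z => 1 + s z ^ 4) z :=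
        Filter.EventuallyEq.deriv_eq h1
      have h5 : deriv (fun z => y z ^ 2) z = 2 * y z * deriv y z := by
        have := (h2.differentiableAt.hasDerivAt.pow 2).deriv
        change deriv (y ^ 2) z = _
        simpa using this
      have h6 : deriv (fun z => 1 + s z ^ 4) z = 4 * s z ^ 3 * deriv s z := by
        have := ((h3.differentiableAt.hasDerivAt.pow 4).const_add 1).deriv
        simpa using this
      rw [← h5, ← h6, h4]
    refine ⟨fun z => - (deriv y z / (2 * s z ^ 3)), ?_, ?_⟩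
    · exact (hya.deriv.div (analyticAt_const.mul (hsa.pow 3))
        (mul_ne_zero two_ne_zero (pow_ne_zero 3 hs0))).neg
    · filter_upwards [hN, hRy, hd, hsne] with z h1 h2 h3 h4
      rw [h1, h2]
      have h5 : deriv s z = y z * deriv y z / (2 * s z ^ 3) := by
        field_simp
        linear_combination -h3 / 2
      rw [h5]
      ring
  · have hyne : ∀ᶠ z in 𝓝 z0, y z ≠ 0 := hya.continuousAt.eventually_ne hy0
    refine ⟨fun z => - (deriv s z / y z), (hsa.deriv.div hya hy0).neg, ?_⟩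
    filter_upwards [hN, hRy, hyne] with z h1 h2 h3
    rw [h1, h2]
    field_simp

theorem localR (hu : AnalyticAt ℂ u z0) (hv : AnalyticAt ℂ v z0) (hR : AnalyticAt ℂ R z0)
    (h : ∀ᶠ z in 𝓝 z0, R z ^ 2 = u z ^ 4 + v z ^ 4) (hne : ∃ᶠ z in 𝓝 z0, R z ≠ 0) :
    ∃ H, AnalyticAt ℂ H z0 ∧ ∀ᶠ z in 𝓝 z0, v z * deriv u z - u z * deriv v z = R z * H z := by
  have hmain : ∀ {u v : ℂ → ℂ}, AnalyticAt ℂ u z0 → AnalyticAt ℂ v z0 →
      (∀ᶠ z in 𝓝 z0, R z ^ 2 = u z ^ 4 + v z ^ 4) → analyticOrderAt u z0 ≤ analyticOrderAt v z0 →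
      ∃ H, AnalyticAt ℂ H z0 ∧
        ∀ᶠ z in 𝓝 z0, v z * deriv u z - u z * deriv v z = R z * H z := by
    intro u v hu hv h hle
    have htop : analyticOrderAt u z0 ≠ ⊤ := by
      intro h1
      rw [h1, top_le_iff] at hle
      have h2 := analyticOrderAt_eq_top.1 h1
      have h3 := analyticOrderAt_eq_top.1 hle
      refine hne ?_
      filter_upwards [h, h2, h3] with z h4 h5 h6
      rw [h5, h6] at h4
      have h7 : R z ^ 2 = 0 := by rw [h4]; norm_num
      rw [not_not]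
      exact pow_eq_zero_iff two_ne_zero |>.1 h7
    obtain ⟨u1, hu1, h0, hu2⟩ := hu.analyticOrderAt_ne_top.1 htop
    rw [← Nat.cast_analyticOrderNatAt htop] at hle
    obtain ⟨v1, hv1, hv2⟩ := (natCast_le_analyticOrderAt hv).1 hle
    exact localR_aux hR h hu1 hv1 h0 hu2 hv2
  rcases le_total (analyticOrderAt u z0) (analyticOrderAt v z0) with hle | hle
  · exact hmain hu hv h hle
  · obtain ⟨H, hH, hH2⟩ := hmain hv hu (h.mono fun z hz => by rw [hz, add_comm]) hle
    refine ⟨fun z => - H z, hH.neg, ?_⟩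
    filter_upwards [hH2] with z hz
    linear_combination -hz

end Q49.NA
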