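import Pool.Agent.Q49.NA.Cplx
import Pool.Agent.Q49.NA.Loc

/-!
# Local boundedness of the pulled back differential form
-/

set_option autoImplicit false

namespace Q49.NA

open Filter Set Topology Metric

theorem diskBound {u v R : ℂ → ℂ} {r0 η c C : ℝ} (hη : 0 < η) (hηr : η < r0)
    (hu : DifferentiableOn ℂ u (ball 0 r0)) (hv : DifferentiableOn ℂ v (ball 0 r0))
    (hR : DifferentiableOn ℂ R (ball 0 r0)) (h : ∀ z ∈ ball (0 : ℂ) r0, R z ^ 2 = u z ^ 4 + v z ^ 4)
    (hc : 0 < c) (hcR : ∀ z, ‖z‖ = η → c ≤ ‖R z‖)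
    (hC : ∀ z, ‖z‖ = η → ‖v z * deriv u z - u z * deriv v z‖ ≤ C) :
    ∀ z, ‖z‖ ≤ η → ‖v z * deriv u z - u z * deriv v z‖ ≤ C / c * ‖R z‖ := by
  classical
  have hua : AnalyticOnNhd ℂ u (ball 0 r0) := hu.analyticOnNhd isOpen_ball
  have hva : AnalyticOnNhd ℂ v (ball 0 r0) := hv.analyticOnNhd isOpen_ball
  have hRa : AnalyticOnNhd ℂ R (ball 0 r0) := hR.analyticOnNhd isOpen_ball
  -- `R` is nowhere locally zero
  have hne : ∀ z ∈ ball (0 : ℂ) r0, ∀ᶠ w in 𝓝[≠] z, R w ≠ 0 := by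
    intro z hz
    rcases (hRa z hz).eventually_eq_zero_or_eventually_ne_zero with h1 | h1
    · exfalso
      have h2 := hRa.eqOn_zero_of_preconnected_of_eventuallyEq_zero
        (convex_ball (0 : ℂ) r0).isPreconnected hz h1
      have h3 : ‖((η : ℝ) : ℂ)‖ = η := by
        rw [Complex.norm_real, Real.norm_of_nonneg hη.le]
      have h4 := hcR _ h3
      rw [h2 (by rw [mem_ball_zero_iff, h3]; exact hηr), Pi.zero_apply, norm_zero] at h4
      linarith
    · exact h1
  have hloc : ∀ z, ∃ H : ℂ → ℂ, z ∈ ball (0 : ℂ) r0 → AnalyticAt ℂ H z ∧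
      ∀ᶠ w in 𝓝 z, v w * deriv u w - u w * deriv v w = R w * H w := by
    intro z
    by_cases hz : z ∈ ball (0 : ℂ) r0
    · obtain ⟨H, h1, h2⟩ := localR (hua z hz) (hva z hz) (hRa z hz)
        ((isOpen_ball.eventually_mem hz).mono fun w hw => h w hw)
        ((hne z hz).frequently.filter_mono nhdsWithin_le_nhds)
      exact ⟨H, fun _ => ⟨h1, h2⟩⟩
    · exact ⟨0, fun h => absurd h hz⟩
  choose Hl hHl using hloc
  set N : ℂ → ℂ := fun z => v z * deriv u z - u z * deriv v z with hN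
  set H : ℂ → ℂ := fun z => if R z ≠ 0 then N z / R z else Hl z z with hH
  have hNH : ∀ z ∈ ball (0 : ℂ) r0, N z = R z * H z := by
    intro z hz
    by_cases h1 : R z = 0
    · have h2 := (hHl z hz).2.self_of_nhds
      rw [hN]
      dsimp only
      rw [h2, h1, zero_mul, zero_mul]
    · rw [hH]
      dsimp only
      rw [if_pos h1]
      field_simp
  have hHa : AnalyticOnNhd ℂ H (ball 0 r0) := by
    intro z hz
    obtain ⟨h1, h2⟩ := hHl z hz
    refine h1.congr ?_
    have h3 : ∀ᶠ w in 𝓝 z, w ≠ z → R w ≠ 0 := eventually_nhdsWithin_iff.1 (hne z hz)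
    filter_upwards [h2, h3] with w h4 h5
    by_cases hwz : w = z
    · rw [hwz]
      by_cases h6 : R z = 0
      · rw [hH]
        dsimp only
        rw [if_neg (by rw [not_not]; exact h6)]
      · rw [hH]
        dsimp only
        rw [if_pos h6, hN]
        dsimp only
        rw [(hHl z hz).2.self_of_nhds]
        field_simp
    · have h6 := h5 hwz
      rw [hH]
      dsimp only
      rw [if_pos h6, hN]
      dsimp only
      rw [h4]
      field_simp
  intro z hz
  have hzb : z ∈ ball (0 : ℂ) r0 := by rw [mem_ball_zero_iff]; linarith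
  have hbound : ‖H z‖ ≤ C / c := by
    refine Complex.norm_le_of_forall_mem_frontier_norm_le (U := ball 0 η) isBounded_ball ?_ ?_ ?_
    · refine DifferentiableOn.diffContOnCl ?_
      rw [closure_ball _ hη.ne']
      exact hHa.differentiableOn.mono (closedBall_subset_ball hηr)
    · intro w hw
      rw [frontier_ball _ hη.ne', mem_sphere_zero_iff_norm] at hw
      have h1 := hNH w (by rw [mem_ball_zero_iff]; linarith)
      have h2 := hC w hw
      have h3 := hcR w hw
      change ‖N w‖ ≤ C at h2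
      rw [h1, norm_mul] at h2
      rw [le_div_iff₀ hc]
      calc ‖H w‖ * c ≤ ‖H w‖ * ‖R w‖ := mul_le_mul_of_nonneg_left h3 (norm_nonneg _)
        _ ≤ C := by rw [mul_comm]; exact h2
    · rw [closure_ball _ hη.ne', mem_closedBall_zero_iff]
      exact hz
  change ‖N z‖ ≤ _
  rw [hNH z hzb, norm_mul, mul_comm]
  exact mul_le_mul_of_nonneg_right hbound (norm_nonneg _)

/-- the numerator of the pulled back form -/
noncomputable def Nf (u v : ℝ × ℝ → ℝ) (x y : ℝ) : ℝ :=
  v (x, y) * deriv (fun y => u (x, y)) y - u (x, y) * deriv (fun y => v (x, y)) y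

theorem localBound {u v ρ : ℝ × ℝ → ℝ} (hu : ∀ q, AnalyticAt ℝ u q) (hv : ∀ q, AnalyticAt ℝ v q)
    (hρ : ∀ q, AnalyticAt ℝ ρ q) (h : ∀ q, ρ q ^ 2 = u q ^ 4 + v q ^ 4) (x0 y0 : ℝ)
    (hne : ∃ᶠ y in 𝓝 y0, ρ (x0, y) ≠ 0) :
    ∃ δ > 0, ∃ C, ∀ x y, |x - x0| < δ → |y - y0| < δ → |Nf u v x y| ≤ C * |ρ (x, y)| := by
  obtain ⟨R1, hR1, U, hUc, hUd, hUe⟩ := complexify (hu (x0, y0))
  obtain ⟨R2, hR2, V, hVc, hVd, hVe⟩ := complexify (hv (x0, y0))
  obtain ⟨R3, hR3, P, hPc, hPd, hPe⟩ := complexify (hρ (x0, y0))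
  dsimp only at hUe hVe hPe
  set r0 := min R1 (min R2 R3) with hr0
  have hr0p : 0 < r0 := lt_min hR1 (lt_min hR2 hR3)
  have hr1 : r0 ≤ R1 := min_le_left _ _
  have hr2 : r0 ≤ R2 := (min_le_right _ _).trans (min_le_left _ _)
  have hr3 : r0 ≤ R3 := (min_le_right _ _).trans (min_le_right _ _)
  have hUd' : ∀ a, |a| ≤ r0 → DifferentiableOn ℂ (U a) (ball 0 r0) := fun a ha =>
    (hUd a (ha.trans hr1)).mono (ball_subset_ball hr1)
  have hVd' : ∀ a, |a| ≤ r0 → DifferentiableOn ℂ (V a) (ball 0 r0) := fun a ha =>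
    (hVd a (ha.trans hr2)).mono (ball_subset_ball hr2)
  have hPd' : ∀ a, |a| ≤ r0 → DifferentiableOn ℂ (P a) (ball 0 r0) := fun a ha =>
    (hPd a (ha.trans hr3)).mono (ball_subset_ball hr3)
  -- the relation
  have hrel : ∀ a, |a| ≤ r0 → ∀ z ∈ ball (0 : ℂ) r0, P a z ^ 2 = U a z ^ 4 + V a z ^ 4 := by
    intro a ha
    have h1 : AnalyticOnNhd ℂ (fun z => P a z ^ 2 - (U a z ^ 4 + V a z ^ 4)) (ball 0 r0) :=
      ((((hPd' a ha).pow 2).sub (((hUd' a ha).pow 4).add ((hVd' a ha).pow 4)))).analyticOnNhd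
        isOpen_ball
    have h2 : ∃ᶠ z in 𝓝[≠] (0 : ℂ), P a z ^ 2 - (U a z ^ 4 + V a z ^ 4) = 0 := by
      have h3 : Tendsto (fun b : ℝ => (b : ℂ)) (𝓝[>] 0) (𝓝[≠] (0 : ℂ)) := by
        refine tendsto_nhdsWithin_iff.2 ⟨?_, ?_⟩
        · have := (Complex.continuous_ofReal.tendsto (0 : ℝ)).mono_left
            (nhdsWithin_le_nhds (s := Ioi (0 : ℝ)))
          simpa using this
        · filter_upwards [self_mem_nhdsWithin] with b hb
          simpa using (ne_of_gt hb : b ≠ 0)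
      refine h3.frequently (Eventually.frequently ?_)
      have h4 : ∀ᶠ b in 𝓝[>] (0 : ℝ), b < r0 := nhdsWithin_le_nhds (gt_mem_nhds hr0p)
      filter_upwards [h4, self_mem_nhdsWithin] with b hb hb0
      have hb1 : |b| ≤ r0 := by rw [abs_of_pos hb0]; exact hb.le
      rw [hPe a b (ha.trans hr3) (hb1.trans hr3), hUe a b (ha.trans hr1) (hb1.trans hr1),
        hVe a b (ha.trans hr2) (hb1.trans hr2)]
      have := h (x0 + a, y0 + b)
      rw [sub_eq_zero]
      exact_mod_cast this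
    have h3 := h1.eqOn_zero_of_preconnected_of_frequently_eq_zero
      (convex_ball (0 : ℂ) r0).isPreconnected (mem_ball_self hr0p) h2
    intro z hz
    have := h3 hz
    rw [Pi.zero_apply, sub_eq_zero] at this
    exact this
  -- the radius `η`
  have h00 : |(0 : ℝ)| ≤ r0 := by rw [abs_zero]; exact hr0p.le
  obtain ⟨η, hη, hηr, hηP⟩ : ∃ η > 0, η < r0 ∧ ∀ z, ‖z‖ = η → P 0 z ≠ 0 := by
    have h1 : AnalyticAt ℂ (P 0) 0 := (hPd' 0 h00).analyticAt (ball_mem_nhds 0 hr0p)
    rcases h1.eventually_eq_zero_or_eventually_ne_zero with h2 | h2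
    · exfalso
      refine hne ?_
      have h3 : Tendsto (fun y : ℝ => ((y - y0 : ℝ) : ℂ)) (𝓝 y0) (𝓝 0) := by
        have : Continuous fun y : ℝ => ((y - y0 : ℝ) : ℂ) := by fun_prop
        have := this.tendsto y0
        simpa using this
      have h4 : ∀ᶠ y in 𝓝 y0, |y - y0| ≤ r0 := by
        have : Continuous fun y : ℝ => |y - y0| := by fun_prop
        have h5 := this.tendsto y0
        rw [sub_self, abs_zero] at h5
        exact (h5.eventually (gt_mem_nhds hr0p)).mono fun y hy => hy.le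
      filter_upwards [h3.eventually h2, h4] with y hy1 hy2
      rw [hPe 0 (y - y0) (h00.trans hr3) (hy2.trans hr3), add_zero, add_sub_cancel] at hy1
      rw [not_not]
      exact_mod_cast hy1
    · obtain ⟨ε, hε, hε2⟩ := Metric.mem_nhdsWithin_iff.1 h2
      refine ⟨min ε r0 / 2, by positivity, ?_, fun z hz => ?_⟩
      · have := min_le_right ε r0
        linarith
      · refine hε2 ⟨?_, ?_⟩
        · rw [mem_ball_zero_iff, hz]
          have := min_le_left ε r0
          have h3 : 0 < min ε r0 := lt_min hε hr0p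
          linarith
        · intro h0
          rw [mem_singleton_iff] at h0
          rw [h0, norm_zero] at hz
          have h3 : 0 < min ε r0 := lt_min hε hr0p
          linarith
  -- lower bound for `P` on the circle
  obtain ⟨c, hc, hcP⟩ : ∃ c > 0, ∀ z, ‖z‖ = η → 2 * c ≤ ‖P 0 z‖ := by
    have h1 : ContinuousOn (fun z => ‖P 0 z‖) (sphere (0 : ℂ) η) := by
      refine ContinuousOn.norm ((hPd' 0 h00).continuousOn.mono fun z hz => ?_)
      rw [mem_sphere_zero_iff_norm] at hz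
      rw [mem_ball_zero_iff]
      linarith
    obtain ⟨w, hw, hw2⟩ := (isCompact_sphere (0 : ℂ) η).exists_isMinOn
      ((NormedSpace.sphere_nonempty).2 hη.le) h1
    refine ⟨‖P 0 w‖ / 2, ?_, fun z hz => ?_⟩
    · have := hηP w (mem_sphere_zero_iff_norm.1 hw)
      positivity
    · have := hw2 (mem_sphere_zero_iff_norm.2 hz)
      have h3 : ‖P 0 w‖ ≤ ‖P 0 z‖ := this
      linarith
  set Q : Set (ℝ × ℂ) := closedBall (0 : ℝ) r0 ×ˢ closedBall (0 : ℂ) r0 with hQ
  have hQc : IsCompact Q := (isCompact_closedBall _ _).prod (isCompact_closedBall _ _)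
  have hQm : ∀ q : ℝ × ℂ, q ∈ Q ↔ |q.1| ≤ r0 ∧ ‖q.2‖ ≤ r0 := by
    intro q
    rw [hQ, mem_prod, mem_closedBall_zero_iff, mem_closedBall_zero_iff, Real.norm_eq_abs]
  have hUQ : ContinuousOn (fun q : ℝ × ℂ => U q.1 q.2) Q := hUc.mono fun q hq =>
    ⟨((hQm q).1 hq).1.trans hr1, ((hQm q).1 hq).2.trans hr1⟩
  have hVQ : ContinuousOn (fun q : ℝ × ℂ => V q.1 q.2) Q := hVc.mono fun q hq =>
    ⟨((hQm q).1 hq).1.trans hr2, ((hQm q).1 hq).2.trans hr2⟩
  have hPQ : ContinuousOn (fun q : ℝ × ℂ => P q.1 q.2) Q := hPc.mono fun q hq =>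
    ⟨((hQm q).1 hq).1.trans hr3, ((hQm q).1 hq).2.trans hr3⟩
  obtain ⟨MU, hMU⟩ := hQc.exists_bound_of_continuousOn hUQ
  obtain ⟨MV, hMV⟩ := hQc.exists_bound_of_continuousOn hVQ
  have hunif := hQc.uniformContinuousOn_of_continuous hPQ
  obtain ⟨δ, hδ, hδP⟩ := Metric.uniformContinuousOn_iff.1 hunif c hc
  -- the derivative bounds
  set r' := (r0 - η) / 2 with hr'
  have hr'p : 0 < r' := by rw [hr']; linarith
  have hder : ∀ (G : ℝ → ℂ → ℂ) (M : ℝ), (∀ a, |a| ≤ r0 → DifferentiableOn ℂ (G a) (ball 0 r0)) →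
      (∀ q ∈ Q, ‖G q.1 q.2‖ ≤ M) → ∀ a, |a| ≤ r0 → ∀ z, ‖z‖ = η → ‖deriv (G a) z‖ ≤ M / r' := by
    intro G M hG hM a ha z hz
    have hsub : closedBall z r' ⊆ ball 0 r0 := by
      intro w hw
      rw [mem_closedBall, dist_eq_norm] at hw
      rw [mem_ball_zero_iff]
      calc ‖w‖ = ‖(w - z) + z‖ := by rw [sub_add_cancel]
        _ ≤ ‖w - z‖ + ‖z‖ := norm_add_le _ _
        _ ≤ r' + η := by rw [hz]; linarith
        _ < r0 := by rw [hr']; linarith
    refine Complex.norm_deriv_le_of_forall_mem_sphere_norm_le hr'p ?_ ?_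
    · refine DifferentiableOn.diffContOnCl ?_
      rw [closure_ball _ hr'p.ne']
      exact (hG a ha).mono hsub
    · intro w hw
      have h1 := hsub (sphere_subset_closedBall hw)
      rw [mem_ball_zero_iff] at h1
      exact hM (a, w) ((hQm _).2 ⟨ha, h1.le⟩)
  have hMU0 : 0 ≤ MU := (norm_nonneg _).trans (hMU (0, 0) ((hQm _).2 ⟨h00, by
    rw [norm_zero]; exact hr0p.le⟩))
  have hMV0 : 0 ≤ MV := (norm_nonneg _).trans (hMV (0, 0) ((hQm _).2 ⟨h00, by
    rw [norm_zero]; exact hr0p.le⟩))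
  set C := MV * (MU / r') + MU * (MV / r') with hC
  refine ⟨min δ (min η r0), by positivity, C / c, fun x y hx hy => ?_⟩
  have hx1 : |x - x0| ≤ r0 := hx.le.trans ((min_le_right _ _).trans (min_le_right _ _))
  have hxδ : |x - x0| < δ := hx.trans_le (min_le_left _ _)
  have hy1 : |y - y0| ≤ η := hy.le.trans ((min_le_right _ _).trans (min_le_left _ _))
  have hy2 : |y - y0| < r0 := lt_of_le_of_lt hy1 hηr
  set a := x - x0 with ha
  set b := y - y0 with hb
  have hxa : x = x0 + a := by rw [ha]; ring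
  have hyb : y = y0 + b := by rw [hb]; ring
  have key := diskBound (u := U a) (v := V a) (R := P a) (c := c) (C := C) hη hηr (hUd' a hx1)
    (hVd' a hx1) (hPd' a hx1) (hrel a hx1) hc (by
      intro z hz
      have h1 : dist (P a z) (P 0 z) < c := by
        refine hδP (a, z) ((hQm _).2 ⟨hx1, by rw [hz]; exact hηr.le⟩) (0, z)
          ((hQm _).2 ⟨h00, by rw [hz]; exact hηr.le⟩) ?_
        rw [Prod.dist_eq]
        simp only [dist_self, Real.dist_eq, sub_zero]
        rw [max_eq_left (abs_nonneg _)]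
        exact hxδ
      rw [dist_eq_norm] at h1
      have h2 := hcP z hz
      have h3 : ‖P 0 z‖ ≤ ‖P a z - P 0 z‖ + ‖P a z‖ := by
        have := norm_sub_norm_le (P 0 z) (P a z)
        rw [norm_sub_rev] at this
        linarith
      linarith) (by
      intro z hz
      have hzQ : (a, z) ∈ Q := (hQm _).2 ⟨hx1, by rw [hz]; exact hηr.le⟩
      have h1 := hder U MU hUd' hMU a hx1 z hz
      have h2 := hder V MV hVd' hMV a hx1 z hz
      refine (norm_sub_le _ _).trans ?_
      rw [norm_mul, norm_mul]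
      exact add_le_add (mul_le_mul (hMV _ hzQ) h1 (norm_nonneg _) hMV0)
        (mul_le_mul (hMU _ hzQ) h2 (norm_nonneg _) hMU0)) b (by
        rw [Complex.norm_real]; exact hy1)
  -- back to real numbers
  have hbb : ((b : ℝ) : ℂ) ∈ ball (0 : ℂ) r0 := by
    rw [mem_ball_zero_iff, Complex.norm_real]; exact hy2
  have hreal : ∀ (G : ℝ → ℂ → ℂ) (f : ℝ × ℝ → ℝ), DifferentiableOn ℂ (G a) (ball 0 r0) →
      (∀ b : ℝ, |b| ≤ r0 → G a b = f (x0 + a, y0 + b)) →
      deriv (fun y => f (x, y)) y = (deriv (G a) b).re := by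
    intro G f hG hGe
    have h1 : HasDerivAt (G a) (deriv (G a) b) b :=
      ((hG.differentiableAt (isOpen_ball.mem_nhds hbb))).hasDerivAt
    have h2 := h1.real_of_complex
    have h3 : (fun t : ℝ => (G a t).re) =ᶠ[𝓝 b] fun t => f (x, y0 + t) := by
      have h4 : ∀ᶠ t in 𝓝 b, |t| < r0 := (continuous_abs.tendsto b).eventually (gt_mem_nhds hy2)
      filter_upwards [h4] with t ht
      rw [hGe t ht.le, Complex.ofReal_re, ← hxa]
    have h4 := h2.congr_of_eventuallyEq h3.symm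
    have h5 : HasDerivAt (fun y => f (x, y)) (deriv (G a) b).re y := by
      have h6 : (fun y => f (x, y)) = fun y => (fun t => f (x, y0 + t)) (y - y0) := by
        funext t
        dsimp only
        rw [add_sub_cancel]
      rw [h6]
      have := HasDerivAt.comp_sub_const y y0 (f := fun t => f (x, y0 + t)) (f' := (deriv (G a) b).re)
        h4
      exact this
    exact h5.deriv
  have hU1 := hreal U u (hUd' a hx1) fun b hb => hUe a b (hx1.trans hr1) (hb.trans hr1)
  have hV1 := hreal V v (hVd' a hx1) fun b hb => hVe a b (hx1.trans hr2) (hb.trans hr2)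
  have hN : Nf u v x y = (V a b * deriv (U a) b - U a b * deriv (V a) b).re := by
    rw [Nf, hU1, hV1, hUe a b (hx1.trans hr1) (hy2.le.trans hr1),
      hVe a b (hx1.trans hr2) (hy2.le.trans hr2), ← hxa, ← hyb, Complex.sub_re,
      Complex.re_ofReal_mul, Complex.re_ofReal_mul]
  rw [hN]
  refine (Complex.abs_re_le_norm _).trans (key.trans (le_of_eq ?_))
  rw [hPe a b (hx1.trans hr3) (hy2.le.trans hr3), ← hxa, ← hyb, Complex.norm_real,
    Real.norm_eq_abs]

end Q49.NA
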