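import Pool.Agent.Q49.NA.Bd
import Pool.Agent.Q49.NA.Arc

/-!
# The homeomorphism from the plane to the cone cannot be approximated by analytic maps
-/

set_option autoImplicit false

namespace Q49.NA

open Filter Set Topology MeasureTheory

/-- `(u, v, ρ)` is an analytic map from the plane to the cone `ρ = √(u⁴ + v⁴)`, close to the
identity on the square -/
structure Hyp (u v ρ : ℝ × ℝ → ℝ) : Prop where
  hu : ∀ q, AnalyticAt ℝ u q
  hv : ∀ q, AnalyticAt ℝ v q
  hρ : ∀ q, AnalyticAt ℝ ρ q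
  rel : ∀ q, ρ q ^ 2 = u q ^ 4 + v q ^ 4
  nn : ∀ q, 0 ≤ ρ q
  cu : ∀ x y, |x| ≤ 1 → |y| ≤ 1 → |u (x, y) - x| < 1 / 2
  cv : ∀ x y, |x| ≤ 1 → |y| ≤ 1 → |v (x, y) - y| < 1 / 2

variable {u v ρ : ℝ × ℝ → ℝ}

theorem slice {f : ℝ × ℝ → ℝ} (hf : ∀ q, AnalyticAt ℝ f q) (x y : ℝ) :
    AnalyticAt ℝ (fun y => f (x, y)) y := (hf (x, y)).curry_right

theorem deriv_slice {f : ℝ × ℝ → ℝ} (hf : ∀ q, AnalyticAt ℝ f q) (x y : ℝ) :
    deriv (fun y => f (x, y)) y = fderiv ℝ f (x, y) (0, 1) := by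
  have h1 : HasDerivAt (fun y : ℝ => (x, y)) ((0 : ℝ), (1 : ℝ)) y :=
    (hasDerivAt_const y x).prodMk (hasDerivAt_id y)
  have h2 := (hf (x, y)).differentiableAt.hasFDerivAt.comp_hasDerivAt y h1
  exact h2.deriv

theorem Nf_cont (hu : ∀ q, AnalyticAt ℝ u q) (hv : ∀ q, AnalyticAt ℝ v q) :
    Continuous fun q : ℝ × ℝ => Nf u v q.1 q.2 := by
  have hc : ∀ {f : ℝ × ℝ → ℝ}, (∀ q, AnalyticAt ℝ f q) → Continuous f := fun hf =>
    continuous_iff_continuousAt.2 fun q => (hf q).continuousAt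
  have hd : ∀ {f : ℝ × ℝ → ℝ}, (∀ q, AnalyticAt ℝ f q) →
      Continuous fun q : ℝ × ℝ => fderiv ℝ f q (0, 1) := fun hf =>
    (continuous_iff_continuousAt.2 fun q => (hf q).fderiv.continuousAt).clm_apply continuous_const
  have h1 : (fun q : ℝ × ℝ => Nf u v q.1 q.2) = fun q => v q * fderiv ℝ u q (0, 1) -
      u q * fderiv ℝ v q (0, 1) := by
    funext q
    rw [Nf, deriv_slice hu, deriv_slice hv]
  rw [h1]
  exact ((hc hv).mul (hd hu)).sub ((hc hu).mul (hd hv))

theorem rho_ne {a b r : ℝ} (h : r ^ 2 = a ^ 4 + b ^ 4) (hb : a ≠ 0 ∨ b ≠ 0) : r ≠ 0 := by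
  rintro rfl
  rcases hb with hb | hb
  · have h1 : 0 < a ^ 4 := by positivity
    have h2 : 0 ≤ b ^ 4 := by positivity
    rw [zero_pow two_ne_zero] at h
    linarith
  · have h1 : 0 < b ^ 4 := by positivity
    have h2 : 0 ≤ a ^ 4 := by positivity
    rw [zero_pow two_ne_zero] at h
    linarith

theorem Hyp.v_top (H : Hyp u v ρ) {x : ℝ} (hx : |x| ≤ 1) : 0 < v (x, 1) := by
  have := H.cv x 1 hx (by norm_num)
  rw [abs_lt] at this
  linarith

theorem Hyp.v_bot (H : Hyp u v ρ) {x : ℝ} (hx : |x| ≤ 1) : v (x, -1) < 0 := by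
  have := H.cv x (-1) hx (by norm_num)
  rw [abs_lt] at this
  linarith

theorem Hyp.freq (H : Hyp u v ρ) {x : ℝ} (hx : |x| ≤ 1) (y0 : ℝ) :
    ∃ᶠ y in 𝓝 y0, ρ (x, y) ≠ 0 := by
  by_contra h
  rw [not_frequently] at h
  have h1 : AnalyticOnNhd ℝ (fun y => ρ (x, y)) univ := fun y _ => slice H.hρ x y
  have h2 := h1.eqOn_zero_of_preconnected_of_eventuallyEq_zero isPreconnected_univ (mem_univ y0)
    (h.mono fun y hy => by
      rw [not_not] at hy
      exact hy)
  exact rho_ne (H.rel (x, 1)) (Or.inr (H.v_top hx).ne') (h2 (mem_univ 1))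

theorem Hyp.unif (H : Hyp u v ρ) {x0 : ℝ} (hx : |x0| ≤ 1) {S : Set ℝ} (hS : IsCompact S) :
    ∃ δ > 0, ∃ C, ∀ x, |x - x0| < δ → ∀ y ∈ S, |Nf u v x y| ≤ C * |ρ (x, y)| := by
  refine hS.induction_on ?_ ?_ ?_ ?_
  · exact ⟨1, one_pos, 0, fun _ _ _ h => absurd h (notMem_empty _)⟩
  · intro s t hst ht
    obtain ⟨δ, hδ, C, h⟩ := ht
    exact ⟨δ, hδ, C, fun x hx y hy => h x hx y (hst hy)⟩
  · intro s t hs ht
    obtain ⟨δ, hδ, C, h⟩ := hs
    obtain ⟨δ', hδ', C', h'⟩ := ht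
    refine ⟨min δ δ', lt_min hδ hδ', max C C', fun x hx y hy => ?_⟩
    rcases hy with hy | hy
    · exact (h x (hx.trans_le (min_le_left _ _)) y hy).trans
        (mul_le_mul_of_nonneg_right (le_max_left _ _) (abs_nonneg _))
    · exact (h' x (hx.trans_le (min_le_right _ _)) y hy).trans
        (mul_le_mul_of_nonneg_right (le_max_right _ _) (abs_nonneg _))
  · intro y0 hy0
    obtain ⟨δ, hδ, C, h⟩ := localBound H.hu H.hv H.hρ H.rel x0 y0 (H.freq hx y0)
    refine ⟨Metric.ball y0 δ, mem_nhdsWithin_of_mem_nhds (Metric.ball_mem_nhds y0 hδ), δ, hδ, C,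
      fun x hx y hy => h x y hx ?_⟩
    rw [Metric.mem_ball, Real.dist_eq] at hy
    exact hy

theorem quot_le {a b C : ℝ} (h : |a| ≤ C * |b|) : |a / b| ≤ |C| := by
  by_cases hb : b = 0
  · rw [hb, div_zero, abs_zero]
    exact abs_nonneg _
  · rw [abs_div, div_le_iff₀ (abs_pos.2 hb)]
    exact h.trans (mul_le_mul_of_nonneg_right (le_abs_self C) (abs_nonneg _))

theorem Hyp.meas (H : Hyp u v ρ) (x : ℝ) : Measurable fun y => Nf u v x y / ρ (x, y) := by
  have h1 : Continuous fun y => Nf u v x y :=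
    (Nf_cont H.hu H.hv).comp (continuous_const.prodMk continuous_id)
  have h2 : Continuous fun y => ρ (x, y) :=
    continuous_iff_continuousAt.2 fun y => (slice H.hρ x y).continuousAt
  exact h1.measurable.div h2.measurable

theorem Hyp.int (H : Hyp u v ρ) {x : ℝ} (hx : |x| ≤ 1) (a b : ℝ) :
    IntervalIntegrable (fun y => Nf u v x y / ρ (x, y)) volume a b := by
  obtain ⟨δ, hδ, C, h⟩ := H.unif hx (isCompact_uIcc (a := a) (b := b))
  rw [intervalIntegrable_iff]
  refine Measure.integrableOn_of_bounded (M := |C|) (by simp) (H.meas x).aestronglyMeasurable ?_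
  refine (ae_restrict_iff' measurableSet_uIoc).2 (Eventually.of_forall fun y hy => ?_)
  exact quot_le (h x (by rw [sub_self, abs_zero]; exact hδ) y (uIoc_subset_uIcc hy))

theorem Hyp.contAt (H : Hyp u v ρ) {x0 : ℝ} (hx : |x0| ≤ 1) :
    ContinuousAt (fun x => ∫ y in (-1 : ℝ)..1, Nf u v x y / ρ (x, y)) x0 := by
  obtain ⟨δ, hδ, C, h⟩ := H.unif hx (isCompact_uIcc (a := (-1 : ℝ)) (b := 1))
  refine intervalIntegral.continuousAt_of_dominated_interval (bound := fun _ => |C|) ?_ ?_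
    intervalIntegrable_const ?_
  · exact Eventually.of_forall fun x => (H.meas x).aestronglyMeasurable
  · have h1 : ∀ᶠ x in 𝓝 x0, |x - x0| < δ := by
      have := Metric.ball_mem_nhds x0 hδ
      filter_upwards [this] with x hx2
      rw [Metric.mem_ball, Real.dist_eq] at hx2
      exact hx2
    filter_upwards [h1] with x hx2
    exact Eventually.of_forall fun y hy => quot_le (h x hx2 y (uIoc_subset_uIcc hy))
  · have h1 : AnalyticOnNhd ℝ (fun y => ρ (x0, y)) univ := fun y _ => slice H.hρ x0 y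
    have h2 := h1.preimage_zero_mem_codiscreteWithin (x := 1)
      (rho_ne (H.rel (x0, 1)) (Or.inr (H.v_top hx).ne')) (mem_univ _) isConnected_univ
    have h3 : ∀ᵐ y : ℝ ∂volume.restrict univ, ρ (x0, y) ≠ 0 :=
      ae_restrict_le_codiscreteWithin MeasurableSet.univ h2
    rw [Measure.restrict_univ] at h3
    filter_upwards [h3] with y hy _
    have h4 : ContinuousAt (fun x => Nf u v x y) x0 :=
      ((Nf_cont H.hu H.hv).comp (continuous_id.prodMk continuous_const)).continuousAt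
    have h5 : ContinuousAt (fun x => ρ (x, y)) x0 := (H.hρ (x0, y)).curry_left.continuousAt
    exact h4.div h5 hy

/-- the integral along a vertical line, modulo the period -/
theorem Hyp.arc (H : Hyp u v ρ) {x : ℝ} (hx : |x| ≤ 1) :
    (((-(∫ y in (-1 : ℝ)..1, Nf u v x y / ρ (x, y)) + L (u (x, 1) / v (x, 1)) -
      L (u (x, -1) / v (x, -1)) : ℝ)) : AddCircle (2 * Q)) = 0 := by
  have hloc : ∀ y0 : ℝ, ∃ ε > 0, ∃ κ : AddCircle (2 * Q), ∀ y, |y - y0| < ε → ρ (x, y) ≠ 0 →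
      ((-(∫ t in (-1 : ℝ)..y, Nf u v x t / ρ (x, t)) : ℝ) : AddCircle (2 * Q)) -
        Lam (u (x, y)) (v (x, y)) = κ := by
    intro y0
    obtain ⟨ε, hε, G, h1, h2⟩ := localArc (slice H.hu x y0) (slice H.hv x y0)
      (fun y => H.nn (x, y)) (fun y => H.rel (x, y)) (H.freq hx y0)
    refine ⟨ε, hε, ((-(∫ t in (-1 : ℝ)..y0, Nf u v x t / ρ (x, t)) - G y0 : ℝ) :
      AddCircle (2 * Q)), fun y hy hρ => ?_⟩
    rw [h1 y hy hρ, ← AddCircle.coe_sub]
    congr 1
    have h3 : ∫ t in y0..y, Nf u v x t / ρ (x, t) = -(G y - G y0) :=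
      h2 y0 y (by rw [sub_self, abs_zero]; exact hε) hy
    have h4 := intervalIntegral.integral_add_adjacent_intervals (H.int hx (-1) y0) (H.int hx y0 y)
    rw [h3] at h4
    linarith
  choose ε hε κ hκ using hloc
  have hlc : IsLocallyConstant κ := by
    rw [IsLocallyConstant.iff_eventually_eq]
    intro y0
    filter_upwards [Metric.ball_mem_nhds y0 (hε y0)] with y1 hy1
    have h1 : ∀ᶠ y in 𝓝 y1, |y - y0| < ε y0 := by
      filter_upwards [Metric.isOpen_ball.mem_nhds hy1] with y hy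
      rw [Metric.mem_ball, Real.dist_eq] at hy
      exact hy
    have h2 : ∀ᶠ y in 𝓝 y1, |y - y1| < ε y1 := by
      filter_upwards [Metric.ball_mem_nhds y1 (hε y1)] with y hy
      rw [Metric.mem_ball, Real.dist_eq] at hy
      exact hy
    obtain ⟨y, hy, hy0, hy1'⟩ := ((H.freq hx y1).and_eventually (h1.and h2)).exists
    rw [← hκ y1 y hy1' hy, hκ y0 y hy0 hy]
  have hconst := hlc.apply_eq_of_preconnectedSpace 1 (-1)
  have ht := hκ 1 1 (by rw [sub_self, abs_zero]; exact hε 1)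
    (rho_ne (H.rel (x, 1)) (Or.inr (H.v_top hx).ne'))
  have hb := hκ (-1) (-1) (by rw [sub_self, abs_zero]; exact hε (-1))
    (rho_ne (H.rel (x, -1)) (Or.inr (H.v_bot hx).ne))
  rw [← ht, ← hb, intervalIntegral.integral_same, neg_zero, AddCircle.coe_zero,
    Lam_of_v (H.v_top hx).ne', Lam_of_v (H.v_bot hx).ne] at hconst
  rw [AddCircle.coe_sub, AddCircle.coe_add]
  rw [AddCircle.coe_neg] at hconst
  rw [AddCircle.coe_neg]
  rw [AddCircle.coe_neg, AddCircle.coe_neg] at hconst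
  rw [sub_neg_eq_add, zero_sub, neg_neg] at hconst
  rw [hconst, sub_self]

/-- the integral along a vertical line on which `u` does not vanish -/
theorem Hyp.arc_u (H : Hyp u v ρ) {x : ℝ} (hu : ∀ y, |y| ≤ 1 → u (x, y) ≠ 0) :
    ∫ y in (-1 : ℝ)..1, Nf u v x y / ρ (x, y) =
      - (L (v (x, 1) / u (x, 1)) - L (v (x, -1) / u (x, -1))) := by
  have hu' : ∀ y ∈ uIcc (-1 : ℝ) 1, u (x, y) ≠ 0 := by
    intro y hy
    rw [uIcc_of_le (by norm_num)] at hy
    exact hu y (abs_le.2 hy)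
  have hd : ∀ y ∈ uIcc (-1 : ℝ) 1, HasDerivAt (fun y => L (v (x, y) / u (x, y)))
      (w (v (x, y) / u (x, y)) * ((deriv (fun y => v (x, y)) y * u (x, y) -
        v (x, y) * deriv (fun y => u (x, y)) y) / u (x, y) ^ 2)) y := by
    intro y hy
    exact (L_deriv _).comp y ((slice H.hv x y).differentiableAt.hasDerivAt.div
      (slice H.hu x y).differentiableAt.hasDerivAt (hu' y hy))
  have hcont : ContinuousOn (fun y => w (v (x, y) / u (x, y)) *
      ((deriv (fun y => v (x, y)) y * u (x, y) -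
        v (x, y) * deriv (fun y => u (x, y)) y) / u (x, y) ^ 2)) (uIcc (-1 : ℝ) 1) := by
    intro y hy
    refine ContinuousAt.continuousWithinAt ?_
    have h1 := (slice H.hv x y).continuousAt
    have h2 := (slice H.hu x y).continuousAt
    have h3 := (slice H.hv x y).deriv.continuousAt
    have h4 := (slice H.hu x y).deriv.continuousAt
    exact (w_cont.continuousAt.comp (h1.div h2 (hu' y hy))).mul
      (((h3.mul h2).sub (h1.mul h4)).div (h2.pow 2) (pow_ne_zero 2 (hu' y hy)))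
  have h1 : ∫ y in (-1 : ℝ)..1, Nf u v x y / ρ (x, y) = ∫ y in (-1 : ℝ)..1,
      -(w (v (x, y) / u (x, y)) * ((deriv (fun y => v (x, y)) y * u (x, y) -
        v (x, y) * deriv (fun y => u (x, y)) y) / u (x, y) ^ 2)) := by
    refine intervalIntegral.integral_congr fun y hy => ?_
    have h2 := hu' y hy
    have h3 : ρ (x, y) = u (x, y) ^ 2 * Real.sqrt (1 + (v (x, y) / u (x, y)) ^ 4) := by
      refine sqrt_eq (H.nn _) ?_
      rw [mul_div_cancel₀ _ h2, H.rel]
      ring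
    rw [h3, Nf, w]
    have h4 := (sq_pos' (v (x, y) / u (x, y))).ne'
    field_simp
    ring
  rw [h1, intervalIntegral.integral_neg,
    intervalIntegral.integral_eq_sub_of_hasDerivAt hd hcont.intervalIntegrable]

theorem Hyp.false (H : Hyp u v ρ) : False := by
  set Φ : ℝ → ℝ := fun x => -(∫ y in (-1 : ℝ)..1, Nf u v x y / ρ (x, y)) +
    L (u (x, 1) / v (x, 1)) - L (u (x, -1) / v (x, -1)) with hΦ
  have hcont : ContinuousOn Φ (Icc (-1) 1) := by
    intro x hx
    have hx' : |x| ≤ 1 := abs_le.2 hx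
    refine ContinuousAt.continuousWithinAt ?_
    have hc : ∀ {f : ℝ × ℝ → ℝ} (y : ℝ), (∀ q, AnalyticAt ℝ f q) →
        ContinuousAt (fun x => f (x, y)) x := fun y hf => (hf (x, y)).curry_left.continuousAt
    refine ((H.contAt hx').neg.add ?_).sub ?_
    · exact L_cont.continuousAt.comp ((hc 1 H.hu).div (hc 1 H.hv) (H.v_top hx').ne')
    · exact L_cont.continuousAt.comp ((hc (-1) H.hu).div (hc (-1) H.hv) (H.v_bot hx').ne)
  have h11 : |(1 : ℝ)| ≤ 1 := by norm_num
  have hm1 : |(-1 : ℝ)| ≤ 1 := by norm_num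
  have hR : ∀ y, |y| ≤ 1 → 0 < u (1, y) := by
    intro y hy
    have := H.cu 1 y h11 hy
    rw [abs_lt] at this
    linarith
  have hL : ∀ y, |y| ≤ 1 → u (-1, y) < 0 := by
    intro y hy
    have := H.cu (-1) y hm1 hy
    rw [abs_lt] at this
    linarith
  have h1 : Φ 1 = 2 * Q := by
    rw [hΦ]
    dsimp only
    rw [H.arc_u fun y hy => (hR y hy).ne']
    have h2 := L_inv (div_pos (H.v_top h11) (hR 1 h11))
    have h3 := L_inv_neg (div_neg_of_neg_of_pos (H.v_bot h11) (hR (-1) hm1))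
    rw [one_div_div] at h2 h3
    linarith
  have h2 : Φ (-1) = -(2 * Q) := by
    rw [hΦ]
    dsimp only
    rw [H.arc_u fun y hy => (hL y hy).ne]
    have h2 := L_inv_neg (div_neg_of_pos_of_neg (H.v_top hm1) (hL 1 h11))
    have h3 := L_inv (div_pos_of_neg_of_neg (H.v_bot hm1) (hL (-1) hm1))
    rw [one_div_div] at h2 h3
    linarith
  have hQ := Q_pos
  obtain ⟨x, hx, hxQ⟩ := intermediate_value_Icc (by norm_num : (-1 : ℝ) ≤ 1) hcont
    (show Q ∈ Icc (Φ (-1)) (Φ 1) by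
      rw [h1, h2]
      exact ⟨by linarith, by linarith⟩)
  have h3 := H.arc (abs_le.2 hx)
  change ((Φ x : ℝ) : AddCircle (2 * Q)) = 0 at h3
  rw [hxQ, AddCircle.coe_eq_zero_iff] at h3
  obtain ⟨n, hn⟩ := h3
  rw [zsmul_eq_mul] at hn
  have h4 : (2 * n - 1 : ℝ) * Q = 0 := by linarith
  rcases mul_eq_zero.1 h4 with h5 | h5
  · have h6 : (2 * n : ℤ) = 1 := by
      have : (2 * n : ℝ) = 1 := by linarith
      exact_mod_cast this
    omega
  · exact hQ.ne' h5

end Q49.NA
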