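import Pool.Agent.Q49.NA.Def
import Pool.Agent.Q49.NA.Glob

/-!
# The cone `w = √(u⁴ + v⁴)`
-/

set_option autoImplicit false

namespace Q49.NA

open MvPolynomial Set Topology Filter

theorem Semialg.nonneg {n : ℕ} (p : MvPolynomial (Fin n) ℝ) : Semialg {x | 0 ≤ eval x p} := by
  have h : {x : Fin n → ℝ | 0 ≤ eval x p} = {x | 0 < eval x (-p)}ᶜ := by
    ext x
    simp
  rw [h]
  exact Semialg.compl _ (Semialg.pos _)

theorem Semialg.zero {n : ℕ} (p : MvPolynomial (Fin n) ℝ) : Semialg {x | eval x p = 0} := by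
  have h : {x : Fin n → ℝ | eval x p = 0} = {x | 0 ≤ eval x p} ∩ {x | 0 ≤ eval x (-p)} := by
    ext x
    simp only [mem_ofPred_eq, mem_inter_iff, map_neg]
    constructor
    · intro h
      rw [h]
      simp
    · rintro ⟨h1, h2⟩
      linarith
  rw [h]
  exact Semialg.inter _ _ (Semialg.nonneg _) (Semialg.nonneg _)

theorem Semialg.congr {n : ℕ} {A B : Set (Fin n → ℝ)} (h : Semialg A) (hAB : ∀ x, x ∈ A ↔ x ∈ B) :
    Semialg B := by
  have : A = B := Set.ext hAB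
  rwa [← this]

/-- the cone -/
def T : Set (Fin 3 → ℝ) := {p | p 2 ^ 2 = p 0 ^ 4 + p 1 ^ 4 ∧ 0 ≤ p 2}

theorem semialg_T : Semialg T := by
  refine (Semialg.inter _ _ (Semialg.zero (X 2 ^ 2 - X 0 ^ 4 - X 1 ^ 4)) (Semialg.nonneg (X 2))).congr
    fun x => ?_
  simp only [mem_inter_iff, mem_ofPred_eq, map_sub, map_pow, eval_X, T]
  constructor
  · rintro ⟨h1, h2⟩
    exact ⟨by linarith, h2⟩
  · rintro ⟨h1, h2⟩
    exact ⟨by linarith, h2⟩

/-- the height function -/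
noncomputable def ht (a b : ℝ) : ℝ := Real.sqrt (a ^ 4 + b ^ 4)

theorem ht_sq (a b : ℝ) : ht a b ^ 2 = a ^ 4 + b ^ 4 := Real.sq_sqrt (by positivity)

theorem ht_nonneg (a b : ℝ) : 0 ≤ ht a b := Real.sqrt_nonneg _

theorem mem_T {p : Fin 3 → ℝ} : p ∈ T ↔ p 2 = ht (p 0) (p 1) := by
  constructor
  · rintro ⟨h1, h2⟩
    rw [ht, ← h1, Real.sqrt_sq h2]
  · intro h
    exact ⟨by rw [h, ht_sq], by rw [h]; exact ht_nonneg _ _⟩

theorem ht_cont : Continuous fun q : ℝ × ℝ => ht q.1 q.2 := by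
  unfold ht
  fun_prop

theorem ht_polar {r : ℝ} (θ : ℝ) :
    ht (r * Real.cos θ) (r * Real.sin θ) = r ^ 2 * ht (Real.cos θ) (Real.sin θ) := by
  rw [ht, ht, show (r * Real.cos θ) ^ 4 + (r * Real.sin θ) ^ 4 =
    (r ^ 2) ^ 2 * (Real.cos θ ^ 4 + Real.sin θ ^ 4) by ring, Real.sqrt_mul (by positivity),
    Real.sqrt_sq (by positivity)]

open scoped ContDiff in
theorem sqrt_an {x : ℝ} (hx : 0 < x) : AnalyticAt ℝ Real.sqrt x :=
  (Real.contDiffAt_sqrt (n := ω) hx.ne').analyticAt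

theorem ht_an {a b : ℝ → ℝ} {t : ℝ} (ha : AnalyticAt ℝ a t) (hb : AnalyticAt ℝ b t)
    (h : 0 < a t ^ 4 + b t ^ 4) : AnalyticAt ℝ (fun t => ht (a t) (b t)) t :=
  AnalyticAt.fun_comp (g := Real.sqrt) (f := fun t => a t ^ 4 + b t ^ 4) (sqrt_an h)
    ((ha.pow 4).add (hb.pow 4))

/-- paths in the cone -/
theorem path_an {a b c : ℝ → ℝ} {t : ℝ} (ha : AnalyticAt ℝ a t) (hb : AnalyticAt ℝ b t)
    (hc : AnalyticAt ℝ c t) : AnalyticAt ℝ (fun t => (![a t, b t, c t] : Fin 3 → ℝ)) t := by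
  rw [analyticAt_pi_iff]
  intro i
  fin_cases i
  · exact ha
  · exact hb
  · exact hc

theorem vec3 {p : Fin 3 → ℝ} {a b c : ℝ} (h0 : p 0 = a) (h1 : p 1 = b) (h2 : p 2 = c) :
    ![a, b, c] = p := by
  funext i
  fin_cases i
  · exact h0.symm
  · exact h1.symm
  · exact h2.symm

theorem cs_pos (θ : ℝ) : 0 < Real.cos θ ^ 4 + Real.sin θ ^ 4 := by
  have h := Real.cos_sq_add_sin_sq θ
  nlinarith [sq_nonneg (Real.cos θ ^ 2 - Real.sin θ ^ 2)]

theorem ht_cs_le (θ : ℝ) : ht (Real.cos θ) (Real.sin θ) ≤ 1 := by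
  have h := Real.cos_sq_add_sin_sq θ
  refine Real.sqrt_le_iff.2 ⟨zero_le_one, ?_⟩
  nlinarith [mul_nonneg (sq_nonneg (Real.cos θ)) (sq_nonneg (Real.sin θ))]

theorem polar (a b : ℝ) : ∃ r θ : ℝ, 0 ≤ r ∧ a = r * Real.cos θ ∧ b = r * Real.sin θ := by
  refine ⟨‖(⟨a, b⟩ : ℂ)‖, Complex.arg ⟨a, b⟩, norm_nonneg _, ?_, ?_⟩
  · exact (Complex.norm_mul_cos_arg ⟨a, b⟩).symm
  · exact (Complex.norm_mul_sin_arg ⟨a, b⟩).symm

theorem locT_zero {U : Set (Fin 3 → ℝ)} (hU : IsOpen U) (h0 : (0 : Fin 3 → ℝ) ∈ U) :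
    ∃ W : Set (Fin 3 → ℝ), IsOpen W ∧ Semialg W ∧ (0 : Fin 3 → ℝ) ∈ W ∧ W ⊆ U ∧
      ConnectedByAnalyticPaths (T ∩ W) := by
  obtain ⟨δ0, hδ0, hball⟩ := Metric.isOpen_iff.1 hU 0 h0
  set δ := min (δ0 / 2) 1 with hδ
  have hδp : 0 < δ := by positivity
  have hδ1 : δ ≤ 1 := min_le_right _ _
  have hδ2 : δ < δ0 := (min_le_left _ _).trans_lt (by linarith)
  refine ⟨{p | p 0 ^ 2 + p 1 ^ 2 < δ ^ 2 ∧ p 2 < δ ^ 2 ∧ -δ ^ 2 < p 2}, ?_, ?_, ?_, ?_, ?_⟩
  · have h1 : IsOpen {p : Fin 3 → ℝ | p 0 ^ 2 + p 1 ^ 2 < δ ^ 2} :=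
      isOpen_lt (by fun_prop) continuous_const
    have h2 : IsOpen {p : Fin 3 → ℝ | p 2 < δ ^ 2} := isOpen_lt (by fun_prop) continuous_const
    have h3 : IsOpen {p : Fin 3 → ℝ | -δ ^ 2 < p 2} := isOpen_lt continuous_const (by fun_prop)
    exact h1.inter (h2.inter h3)
  · refine (Semialg.inter _ _ (Semialg.pos (C (δ ^ 2) - X 0 ^ 2 - X 1 ^ 2))
      (Semialg.inter _ _ (Semialg.pos (C (δ ^ 2) - X 2)) (Semialg.pos (C (δ ^ 2) + X 2)))).congr
      fun x => ?_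
    simp only [mem_inter_iff, mem_ofPred_eq, map_sub, map_pow, eval_X, map_add, eval_C]
    constructor
    · rintro ⟨h1, h2, h3⟩
      exact ⟨by linarith, by linarith, by linarith⟩
    · rintro ⟨h1, h2, h3⟩
      exact ⟨by linarith, by linarith, by linarith⟩
  · have h1 : 0 < δ ^ 2 := by positivity
    simp only [mem_ofPred_eq, Pi.zero_apply]
    exact ⟨by linarith, h1, by linarith⟩
  · rintro p ⟨h1, h2, h3⟩
    refine hball ?_
    have hsq : δ ^ 2 ≤ δ := by nlinarith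
    have hp0 : |p 0| < δ := abs_lt_of_sq_lt_sq (by nlinarith [sq_nonneg (p 1)]) hδp.le
    have hp1 : |p 1| < δ := abs_lt_of_sq_lt_sq (by nlinarith [sq_nonneg (p 0)]) hδp.le
    have hp2 : |p 2| < δ := abs_lt.2 ⟨by linarith, by linarith⟩
    rw [mem_ball_zero_iff, pi_norm_lt_iff hδ0]
    intro i
    rw [Real.norm_eq_abs]
    fin_cases i
    · exact hp0.trans hδ2
    · exact hp1.trans hδ2
    · exact hp2.trans hδ2
  · rintro p ⟨hpT, hp1, hp2, hp3⟩ q ⟨hqT, hq1, hq2, hq3⟩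
    rw [mem_T] at hpT hqT
    obtain ⟨r1, θ1, hr1, ha1, hb1⟩ := polar (p 0) (p 1)
    obtain ⟨r2, θ2, hr2, ha2, hb2⟩ := polar (q 0) (q 1)
    have hrad : ∀ r θ : ℝ, (r * Real.cos θ) ^ 2 + (r * Real.sin θ) ^ 2 = r ^ 2 := by
      intro r θ
      have h := Real.cos_sq_add_sin_sq θ
      calc _ = r ^ 2 * (Real.cos θ ^ 2 + Real.sin θ ^ 2) := by ring
        _ = r ^ 2 := by rw [h, mul_one]
    rw [ha1, hb1, hrad] at hp1
    rw [ha2, hb2, hrad] at hq1
    have hr1δ : r1 < δ := lt_of_pow_lt_pow_left₀ 2 hδp.le hp1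
    have hr2δ : r2 < δ := lt_of_pow_lt_pow_left₀ 2 hδp.le hq1
    let r : ℝ → ℝ := fun t => (1 - t) * r1 + t * r2
    let θ : ℝ → ℝ := fun t => (1 - t) * θ1 + t * θ2
    have hra : ∀ t, AnalyticAt ℝ r t := fun t => by fun_prop
    have hθa : ∀ t, AnalyticAt ℝ θ t := fun t => by fun_prop
    have hca : ∀ t, AnalyticAt ℝ (fun t => Real.cos (θ t)) t := fun t =>
      Real.analyticAt_cos.fun_comp (hθa t)
    have hsa : ∀ t, AnalyticAt ℝ (fun t => Real.sin (θ t)) t := fun t =>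
      Real.analyticAt_sin.fun_comp (hθa t)
    refine ⟨fun t => ![r t * Real.cos (θ t), r t * Real.sin (θ t),
      r t ^ 2 * ht (Real.cos (θ t)) (Real.sin (θ t))], ?_, ?_, ?_, ?_⟩
    · intro t _
      exact path_an ((hra t).mul (hca t)) ((hra t).mul (hsa t))
        (((hra t).pow 2).mul (ht_an (hca t) (hsa t) (cs_pos _)))
    · intro t ht'
      have hr0 : 0 ≤ r t := add_nonneg (mul_nonneg (by linarith [ht'.2]) hr1)
        (mul_nonneg ht'.1 hr2)
      have hrδ : r t < δ := by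
        have h1 : (1 - t) * r1 ≤ (1 - t) * max r1 r2 :=
          mul_le_mul_of_nonneg_left (le_max_left _ _) (by linarith [ht'.2])
        have h2 : t * r2 ≤ t * max r1 r2 := mul_le_mul_of_nonneg_left (le_max_right _ _) ht'.1
        have h3 : max r1 r2 < δ := max_lt hr1δ hr2δ
        calc r t = (1 - t) * r1 + t * r2 := rfl
          _ ≤ max r1 r2 := by linarith
          _ < δ := h3
      have hrδ2 : r t ^ 2 < δ ^ 2 := pow_lt_pow_left₀ hrδ hr0 two_ne_zero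
      have h1 := ht_cs_le (θ t)
      have h2 := ht_nonneg (Real.cos (θ t)) (Real.sin (θ t))
      have h3 : r t ^ 2 * ht (Real.cos (θ t)) (Real.sin (θ t)) ≤ r t ^ 2 :=
        mul_le_of_le_one_right (sq_nonneg _) h1
      have h4 : 0 ≤ r t ^ 2 * ht (Real.cos (θ t)) (Real.sin (θ t)) :=
        mul_nonneg (sq_nonneg _) h2
      refine ⟨mem_T.2 (ht_polar (θ t)).symm, ?_, ?_, ?_⟩
      · change (r t * Real.cos (θ t)) ^ 2 + (r t * Real.sin (θ t)) ^ 2 < δ ^ 2
        rw [hrad]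
        exact hrδ2
      · change r t ^ 2 * ht (Real.cos (θ t)) (Real.sin (θ t)) < δ ^ 2
        linarith
      · change -δ ^ 2 < r t ^ 2 * ht (Real.cos (θ t)) (Real.sin (θ t))
        have : 0 < δ ^ 2 := by positivity
        linarith
    · have h1 : r 0 = r1 := by simp [r]
      have h2 : θ 0 = θ1 := by simp [θ]
      dsimp only
      rw [h1, h2]
      refine vec3 ha1 hb1 ?_
      rw [hpT, ha1, hb1, ht_polar]
    · have h1 : r 1 = r2 := by simp [r]
      have h2 : θ 1 = θ2 := by simp [θ]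
      dsimp only
      rw [h1, h2]
      refine vec3 ha2 hb2 ?_
      rw [hqT, ha2, hb2, ht_polar]

theorem locT_ne {x : Fin 3 → ℝ} (hx : x ∈ T) (hne : 0 < x 0 ^ 2 + x 1 ^ 2)
    {U : Set (Fin 3 → ℝ)} (hU : IsOpen U) (h0 : x ∈ U) :
    ∃ W : Set (Fin 3 → ℝ), IsOpen W ∧ Semialg W ∧ x ∈ W ∧ W ⊆ U ∧
      ConnectedByAnalyticPaths (T ∩ W) := by
  rw [mem_T] at hx
  obtain ⟨η, hη, hball⟩ := Metric.isOpen_iff.1 hU x h0
  obtain ⟨δ1, hδ1, hδ1c⟩ := Metric.continuousAt_iff.1 (ht_cont.continuousAt (x := (x 0, x 1))) η hη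
  set ρ := Real.sqrt (x 0 ^ 2 + x 1 ^ 2) with hρ
  have hρp : 0 < ρ := Real.sqrt_pos.2 hne
  have hρ2 : ρ ^ 2 = x 0 ^ 2 + x 1 ^ 2 := Real.sq_sqrt hne.le
  set δ := min (min η δ1) ρ with hδ
  have hδp : 0 < δ := lt_min (lt_min hη hδ1) hρp
  have hδη : δ ≤ η := (min_le_left _ _).trans (min_le_left _ _)
  have hδδ : δ ≤ δ1 := (min_le_left _ _).trans (min_le_right _ _)
  have hδρ : δ ≤ ρ := min_le_right _ _
  have hnear : ∀ a b : ℝ, (a - x 0) ^ 2 + (b - x 1) ^ 2 < δ ^ 2 →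
      |a - x 0| < δ ∧ |b - x 1| < δ ∧ |ht a b - x 2| < η ∧ 0 < a ^ 4 + b ^ 4 := by
    intro a b h
    have h1 : |a - x 0| < δ := abs_lt_of_sq_lt_sq (by nlinarith [sq_nonneg (b - x 1)]) hδp.le
    have h2 : |b - x 1| < δ := abs_lt_of_sq_lt_sq (by nlinarith [sq_nonneg (a - x 0)]) hδp.le
    refine ⟨h1, h2, ?_, ?_⟩
    · have h3 : dist ((a, b) : ℝ × ℝ) (x 0, x 1) < δ1 := by
        rw [Prod.dist_eq, Real.dist_eq, Real.dist_eq]
        exact max_lt (h1.trans_le hδδ) (h2.trans_le hδδ)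
      have h4 := hδ1c h3
      rw [Real.dist_eq] at h4
      rw [hx]
      exact h4
    · by_contra hneg
      have ha : a = 0 := by
        by_contra ha
        have : 0 < a ^ 4 := by positivity
        have : 0 ≤ b ^ 4 := by positivity
        linarith
      have hb : b = 0 := by
        by_contra hb
        have : 0 < b ^ 4 := by positivity
        have : 0 ≤ a ^ 4 := by positivity
        linarith
      rw [ha, hb] at h
      have : δ ^ 2 ≤ ρ ^ 2 := pow_le_pow_left₀ hδp.le hδρ 2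
      rw [hρ2] at this
      nlinarith
  refine ⟨{p | (p 0 - x 0) ^ 2 + (p 1 - x 1) ^ 2 < δ ^ 2 ∧ p 2 - x 2 < η ∧ -η < p 2 - x 2},
    ?_, ?_, ?_, ?_, ?_⟩
  · have h1 : IsOpen {p : Fin 3 → ℝ | (p 0 - x 0) ^ 2 + (p 1 - x 1) ^ 2 < δ ^ 2} :=
      isOpen_lt (by fun_prop) continuous_const
    have h2 : IsOpen {p : Fin 3 → ℝ | p 2 - x 2 < η} := isOpen_lt (by fun_prop) continuous_const
    have h3 : IsOpen {p : Fin 3 → ℝ | -η < p 2 - x 2} := isOpen_lt continuous_const (by fun_prop)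
    exact h1.inter (h2.inter h3)
  · refine (Semialg.inter _ _ (Semialg.pos (C (δ ^ 2) - (X 0 - C (x 0)) ^ 2 - (X 1 - C (x 1)) ^ 2))
      (Semialg.inter _ _ (Semialg.pos (C η - X 2 + C (x 2))) (Semialg.pos (C η + X 2 - C (x 2))))).congr
      fun x => ?_
    simp only [mem_inter_iff, mem_ofPred_eq, map_sub, map_pow, eval_X, map_add, eval_C]
    constructor
    · rintro ⟨h1, h2, h3⟩
      exact ⟨by linarith, by linarith, by linarith⟩
    · rintro ⟨h1, h2, h3⟩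
      exact ⟨by linarith, by linarith, by linarith⟩
  · simp only [mem_ofPred_eq, sub_self]
    have : 0 < δ ^ 2 := by positivity
    exact ⟨by linarith, hη, by linarith⟩
  · rintro p ⟨h1, h2, h3⟩
    obtain ⟨h4, h5, -, -⟩ := hnear _ _ h1
    refine hball ?_
    rw [mem_ball_iff_norm, pi_norm_lt_iff hη]
    intro i
    rw [Real.norm_eq_abs, Pi.sub_apply]
    fin_cases i
    · exact h4.trans_le hδη
    · exact h5.trans_le hδη
    · exact abs_lt.2 ⟨h3, h2⟩
  · rintro p ⟨hpT, hp1, -, -⟩ q ⟨hqT, hq1, -, -⟩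
    rw [mem_T] at hpT hqT
    let a : ℝ → ℝ := fun t => (1 - t) * p 0 + t * q 0
    let b : ℝ → ℝ := fun t => (1 - t) * p 1 + t * q 1
    have haa : ∀ t, AnalyticAt ℝ a t := fun t => by fun_prop
    have hba : ∀ t, AnalyticAt ℝ b t := fun t => by fun_prop
    have hmem : ∀ t ∈ Icc (0 : ℝ) 1, (a t - x 0) ^ 2 + (b t - x 1) ^ 2 < δ ^ 2 := by
      intro t ht'
      have h1 : ∀ c d e : ℝ, ((1 - t) * c + t * d - e) ^ 2 ≤
          (1 - t) * (c - e) ^ 2 + t * (d - e) ^ 2 := by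
        intro c d e
        have h2 : 0 ≤ t * (1 - t) * (c - d) ^ 2 :=
          mul_nonneg (mul_nonneg ht'.1 (by linarith [ht'.2])) (sq_nonneg _)
        nlinarith
      have h2 := h1 (p 0) (q 0) (x 0)
      have h3 := h1 (p 1) (q 1) (x 1)
      have h4 : (1 - t) * ((p 0 - x 0) ^ 2 + (p 1 - x 1) ^ 2) +
          t * ((q 0 - x 0) ^ 2 + (q 1 - x 1) ^ 2) < δ ^ 2 := by
        rcases ht'.1.eq_or_lt with h5 | h5
        · rw [← h5]
          linarith
        · have h6 := mul_lt_mul_of_pos_left hq1 h5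
          have h7 := mul_le_mul_of_nonneg_left hp1.le (by linarith [ht'.2] : 0 ≤ 1 - t)
          linarith
      calc _ ≤ (1 - t) * (p 0 - x 0) ^ 2 + t * (q 0 - x 0) ^ 2 +
            ((1 - t) * (p 1 - x 1) ^ 2 + t * (q 1 - x 1) ^ 2) := add_le_add h2 h3
        _ = (1 - t) * ((p 0 - x 0) ^ 2 + (p 1 - x 1) ^ 2) +
          t * ((q 0 - x 0) ^ 2 + (q 1 - x 1) ^ 2) := by ring
        _ < δ ^ 2 := h4
    refine ⟨fun t => ![a t, b t, ht (a t) (b t)], ?_, ?_, ?_, ?_⟩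
    · intro t ht'
      obtain ⟨-, -, -, h1⟩ := hnear _ _ (hmem t ht')
      exact path_an (haa t) (hba t) (ht_an (haa t) (hba t) h1)
    · intro t ht'
      obtain ⟨-, -, h1, -⟩ := hnear _ _ (hmem t ht')
      rw [abs_lt] at h1
      exact ⟨mem_T.2 rfl, hmem t ht', h1.2, h1.1⟩
    · have h1 : a 0 = p 0 := by simp [a]
      have h2 : b 0 = p 1 := by simp [b]
      dsimp only
      rw [h1, h2]
      exact vec3 rfl rfl hpT
    · have h1 : a 1 = q 0 := by simp [a]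
      have h2 : b 1 = q 1 := by simp [b]
      dsimp only
      rw [h1, h2]
      exact vec3 rfl rfl hqT

theorem loc_T : LocallyConnectedByAnalyticPaths T := by
  intro x hx U hU hxU
  by_cases h : x 0 ^ 2 + x 1 ^ 2 = 0
  · have h0 : x 0 = 0 := by nlinarith [sq_nonneg (x 0), sq_nonneg (x 1)]
    have h1 : x 1 = 0 := by nlinarith [sq_nonneg (x 0), sq_nonneg (x 1)]
    have h2 : x 2 = 0 := by
      rw [mem_T.1 hx, h0, h1, ht]
      simp
    have h3 : x = 0 := by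
      funext i
      fin_cases i
      · exact h0
      · exact h1
      · exact h2
    rw [h3] at hxU ⊢
    exact locT_zero hU hxU
  · exact locT_ne hx (lt_of_le_of_ne (by positivity) (Ne.symm h)) hU hxU

theorem not_ats : ¬ IsATS T := by
  intro hats
  obtain ⟨g, hg, hgT, hgε⟩ := hats 2 univ (by norm_num) univ_nonempty
    ((Semialg.pos 1).congr fun x => by simp)
    isClosed_univ.isClosedEmbedding_subtypeVal.locallyCompactSpace
    (fun x => ![x 0, x 1, ht (x 0) (x 1)]) (by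
      refine Continuous.continuousOn ?_
      refine continuous_pi fun i => ?_
      fin_cases i
      · exact continuous_apply 0
      · exact continuous_apply 1
      · have h1 : Continuous fun x : Fin 2 → ℝ => (x 0, x 1) := by fun_prop
        exact ht_cont.comp h1)
    (by
      refine (Semialg.inter _ _ (Semialg.zero (X 2 - X 0)) (Semialg.inter _ _
        (Semialg.zero (X 3 - X 1)) (Semialg.inter _ _ (Semialg.zero (X 4 ^ 2 - X 0 ^ 4 - X 1 ^ 4))
          (Semialg.nonneg (X 4))))).congr fun z => ?_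
      simp only [mem_inter_iff, mem_ofPred_eq, map_sub, map_pow, eval_X, mem_univ, true_and]
      have e0 : z (Fin.castAdd 3 (0 : Fin 2)) = z 0 := rfl
      have e1 : z (Fin.castAdd 3 (1 : Fin 2)) = z 1 := rfl
      constructor
      · rintro ⟨h1, h2, h3, h4⟩ j
        fin_cases j
        · change z 2 = z 0
          linarith
        · change z 3 = z 1
          linarith
        · change z 4 = ht (z 0) (z 1)
          rw [ht, show z 0 ^ 4 + z 1 ^ 4 = z 4 ^ 2 by linarith, Real.sqrt_sq h4]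
      · intro h
        have h1 : z 2 = z 0 := h 0
        have h2 : z 3 = z 1 := h 1
        have h3 : z 4 = ht (z 0) (z 1) := h 2
        refine ⟨by linarith, by linarith, ?_, ?_⟩
        · rw [h3, ht_sq]
          ring
        · rw [h3]
          exact ht_nonneg _ _)
    (fun x _ => mem_T.2 rfl) (fun _ => 1 / 10) continuousOn_const (by
      refine (Semialg.zero (X 2 - C (1 / 10))).congr fun z => ?_
      simp only [mem_ofPred_eq, map_sub, eval_X, eval_C, mem_univ, true_and]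
      constructor
      · intro h j
        fin_cases j
        change z 2 = 1 / 10
        linarith
      · intro h
        have h1 : z 2 = 1 / 10 := h 0
        linarith) (fun _ _ => by norm_num)
  -- the components
  have hcomp : ∀ j : Fin 3, ∃ G : (Fin 2 → ℝ) → ℝ, (∀ x, AnalyticAt ℝ G x) ∧
      ∀ x, g x j = G x := by
    intro j
    obtain ⟨Ω, G, hΩ, ⟨-, -, hG, -⟩, hgG⟩ := hg j
    exact ⟨G, fun x => hG x (hΩ (mem_univ x)), fun x => hgG x (mem_univ x)⟩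
  choose G hG hgG using hcomp
  have hlin : ∀ q : ℝ × ℝ, AnalyticAt ℝ (fun q : ℝ × ℝ => (![q.1, q.2] : Fin 2 → ℝ)) q := by
    intro q
    rw [analyticAt_pi_iff]
    intro i
    fin_cases i
    · exact analyticAt_fst
    · exact analyticAt_snd
  have hGa : ∀ j, ∀ q : ℝ × ℝ, AnalyticAt ℝ (fun q : ℝ × ℝ => G j ![q.1, q.2]) q := fun j q =>
    (hG j _).fun_comp (hlin q)
  have hclose : ∀ (x y : ℝ) (j : Fin 3),
      |G j ![x, y] - (![x, y, ht x y] : Fin 3 → ℝ) j| < 1 / 10 := by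
    intro x y j
    have h1 := hgε ![x, y] (mem_univ _)
    have h2 : (G j ![x, y] - (![x, y, ht x y] : Fin 3 → ℝ) j) ^ 2 ≤
        ∑ j, (g ![x, y] j - (![(![x, y] : Fin 2 → ℝ) 0, (![x, y] : Fin 2 → ℝ) 1,
          ht ((![x, y] : Fin 2 → ℝ) 0) ((![x, y] : Fin 2 → ℝ) 1)] : Fin 3 → ℝ) j) ^ 2 := by
      have h3 := Finset.single_le_sum (f := fun j => (g ![x, y] j -
        (![(![x, y] : Fin 2 → ℝ) 0, (![x, y] : Fin 2 → ℝ) 1,
          ht ((![x, y] : Fin 2 → ℝ) 0) ((![x, y] : Fin 2 → ℝ) 1)] : Fin 3 → ℝ) j) ^ 2)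
        (fun j _ => sq_nonneg _) (Finset.mem_univ j)
      refine le_trans (le_of_eq ?_) h3
      rw [hgG]
      rfl
    refine lt_of_le_of_lt ?_ h1
    rw [← Real.sqrt_sq_eq_abs]
    exact Real.sqrt_le_sqrt h2
  have hT : ∀ x y : ℝ, (g ![x, y]) ∈ T := fun x y => hgT (mem_univ _)
  refine Hyp.false (u := fun q => G 0 ![q.1, q.2]) (v := fun q => G 1 ![q.1, q.2])
    (ρ := fun q => G 2 ![q.1, q.2]) ⟨hGa 0, hGa 1, hGa 2, ?_, ?_, ?_, ?_⟩
  · intro q
    have h1 := (hT q.1 q.2).1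
    rw [hgG, hgG, hgG] at h1
    exact h1
  · intro q
    have h1 := (hT q.1 q.2).2
    rw [hgG] at h1
    exact h1
  · intro x y _ _
    have h1 := hclose x y 0
    exact lt_trans h1 (by norm_num)
  · intro x y _ _
    have h1 := hclose x y 1
    exact lt_trans h1 (by norm_num)

end Q49.NA
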