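import Mathlib

/-!
# Complexification of a real analytic function of two variables in the second variable
-/

set_option autoImplicit false

namespace Q49.NA

open Filter Set Topology

theorem piece_eq {n : ℕ} (P : ContinuousMultilinearMap ℝ (fun _ : Fin n => ℝ × ℝ) ℝ) (a b : ℝ) :
    P (fun _ => (a, b)) = ∑ s : Finset (Fin n),
      P (s.piecewise (fun _ => ((1 : ℝ), (0 : ℝ))) (fun _ => ((0 : ℝ), (1 : ℝ)))) *
        (a ^ s.card * b ^ (n - s.card)) := by
  classical
  have h1 : (fun _ : Fin n => (a, b)) = (fun _ => (a, (0 : ℝ))) + fun _ => ((0 : ℝ), b) := by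
    funext i
    simp
  rw [h1, P.map_add_univ]
  refine Finset.sum_congr rfl fun s _ => ?_
  have h2 : s.piecewise (fun _ : Fin n => (a, (0 : ℝ))) (fun _ => ((0 : ℝ), b)) =
      fun i => (if i ∈ s then a else b) •
        s.piecewise (fun _ => ((1 : ℝ), (0 : ℝ))) (fun _ => ((0 : ℝ), (1 : ℝ))) i := by
    funext i
    by_cases hi : i ∈ s
    · simp [hi]
    · simp [hi]
  rw [h2, P.map_smul_univ, smul_eq_mul, mul_comm]
  congr 1
  rw [Finset.prod_ite]
  simp only [Finset.prod_const]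
  congr 2
  · congr 1
    ext i
    simp
  · rw [Finset.filter_not, Finset.card_sdiff_of_subset (Finset.filter_subset _ _)]
    simp

/-- complexification in the second variable -/
theorem complexify {u : ℝ × ℝ → ℝ} {p : ℝ × ℝ} (hu : AnalyticAt ℝ u p) :
    ∃ R > (0 : ℝ), ∃ F : ℝ → ℂ → ℂ,
      ContinuousOn (fun q : ℝ × ℂ => F q.1 q.2) {q | |q.1| ≤ R ∧ ‖q.2‖ ≤ R} ∧
      (∀ a, |a| ≤ R → DifferentiableOn ℂ (F a) (Metric.ball 0 R)) ∧
      ∀ a b : ℝ, |a| ≤ R → |b| ≤ R → F a b = u (p.1 + a, p.2 + b) := by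
  classical
  obtain ⟨P, r, hP⟩ := hu
  obtain ⟨R0, hR0, hR0r⟩ := ENNReal.lt_iff_exists_nnreal_btwn.1 hP.r_pos
  have hR0' : 0 < (R0 : ℝ) := by exact_mod_cast hR0
  have hsum : Summable fun n => ‖P n‖ * (R0 : ℝ) ^ n :=
    P.summable_norm_mul_pow (lt_of_lt_of_le hR0r hP.r_le)
  let E : (n : ℕ) → Finset (Fin n) → ℝ := fun n s =>
    P n (s.piecewise (fun _ => ((1 : ℝ), (0 : ℝ))) (fun _ => ((0 : ℝ), (1 : ℝ))))
  have hE : ∀ n s, |E n s| ≤ ‖P n‖ := by
    intro n s
    have h1 := (P n).le_opNorm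
      (s.piecewise (fun _ => ((1 : ℝ), (0 : ℝ))) (fun _ => ((0 : ℝ), (1 : ℝ))))
    have h2 : ∏ i, ‖s.piecewise (fun _ : Fin n => ((1 : ℝ), (0 : ℝ)))
        (fun _ => ((0 : ℝ), (1 : ℝ))) i‖ = 1 := by
      refine Finset.prod_eq_one fun i _ => ?_
      by_cases hi : i ∈ s
      · simp [hi, Prod.norm_def]
      · simp [hi, Prod.norm_def]
    rw [h2, mul_one] at h1
    exact h1
  let T : ℕ → ℝ → ℂ → ℂ := fun n a z =>
    ∑ s : Finset (Fin n), (E n s : ℂ) * ((a : ℂ) ^ s.card * z ^ (n - s.card))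
  have hT : ∀ (n : ℕ) (a : ℝ) (z : ℂ), |a| ≤ (R0 : ℝ) / 2 → ‖z‖ ≤ (R0 : ℝ) / 2 →
      ‖T n a z‖ ≤ ‖P n‖ * (R0 : ℝ) ^ n := by
    intro n a z ha hz
    calc ‖T n a z‖ ≤ ∑ s : Finset (Fin n), ‖P n‖ * (|a| ^ s.card * ‖z‖ ^ (n - s.card)) := by
          refine (norm_sum_le _ _).trans (Finset.sum_le_sum fun s _ => ?_)
          rw [norm_mul, norm_mul, norm_pow, norm_pow, Complex.norm_real, Complex.norm_real]
          exact mul_le_mul_of_nonneg_right (hE n s) (by positivity)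
      _ = ‖P n‖ * (|a| + ‖z‖) ^ n := by
          rw [← Finset.mul_sum, Fin.sum_pow_mul_eq_add_pow]
      _ ≤ _ := by
          refine mul_le_mul_of_nonneg_left (pow_le_pow_left₀ (by positivity) ?_ n) (norm_nonneg _)
          linarith
  refine ⟨(R0 : ℝ) / 2, by positivity, fun a z => ∑' n, T n a z, ?_, ?_, ?_⟩
  · refine continuousOn_tsum (u := fun n => ‖P n‖ * (R0 : ℝ) ^ n)
      (f := fun n (q : ℝ × ℂ) => T n q.1 q.2) (fun n => ?_) hsum fun n q hq => hT n _ _ hq.1 hq.2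
    refine Continuous.continuousOn ?_
    refine continuous_finsetSum _ fun s _ => ?_
    fun_prop
  · intro a ha
    refine Complex.differentiableOn_tsum_of_summable_norm (u := fun n => ‖P n‖ * (R0 : ℝ) ^ n)
      hsum (fun n => ?_) Metric.isOpen_ball fun n z hz => hT n a z ha ?_
    · refine Differentiable.differentiableOn ?_
      simp only [T]
      fun_prop
    · have := mem_ball_zero_iff.1 hz
      linarith
  · intro a b ha hb
    have h1 : ∀ n, T n a b = ((P n (fun _ => (a, b)) : ℝ) : ℂ) := by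
      intro n
      rw [piece_eq]
      simp only [T]
      push_cast
      rfl
    have h2 : HasSum (fun n => P n (fun _ => (a, b))) (u (p + (a, b))) := by
      refine hP.hasSum ?_
      rw [Metric.mem_eball, edist_zero_right]
      refine lt_trans ?_ hR0r
      rw [← ofReal_norm]
      refine (ENNReal.ofReal_lt_coe_iff (norm_nonneg _)).2 ?_
      rw [Prod.norm_def]
      refine lt_of_le_of_lt (max_le ha hb) ?_
      linarith
    have h3 : p + (a, b) = (p.1 + a, p.2 + b) := rfl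
    rw [h3] at h2
    simp_rw [h1]
    exact ((Complex.hasSum_ofReal.2 h2).tsum_eq)

end Q49.NA
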