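import Mathlib

/-!
# Nash maps, approximation targets, connectedness by analytic paths
-/

set_option autoImplicit false

namespace Q49.NA

open MvPolynomial

/-- semialgebraic subsets of `ℝⁿ`: the Boolean algebra of sets generated by the sets `p > 0`,
`p` a polynomial -/
inductive Semialg {n : ℕ} : Set (Fin n → ℝ) → Prop
  | pos (p : MvPolynomial (Fin n) ℝ) : Semialg {x | 0 < eval x p}
  | compl (A : Set (Fin n → ℝ)) : Semialg A → Semialg Aᶜ
  | inter (A B : Set (Fin n → ℝ)) : Semialg A → Semialg B → Semialg (A ∩ B)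

/-- The map `f : S → ℝⁿ` is semialgebraic: its graph is a semialgebraic subset of `ℝ^(m + n)`. -/
def SemialgMap {m n : ℕ} (S : Set (Fin m → ℝ)) (f : (Fin m → ℝ) → (Fin n → ℝ)) : Prop :=
  Semialg {z : Fin (m + n) → ℝ | (fun i => z (Fin.castAdd n i)) ∈ S ∧
    ∀ j, z (Fin.natAdd m j) = f (fun i => z (Fin.castAdd n i)) j}

/-- The function `ε : S → ℝ` is semialgebraic. -/
def SemialgFun {m : ℕ} (S : Set (Fin m → ℝ)) (ε : (Fin m → ℝ) → ℝ) : Prop :=
  SemialgMap (n := 1) S fun x _ => ε x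

/-- Nash functions on an open semialgebraic set: real analytic functions which are semialgebraic -/
def NashFun {m : ℕ} (Ω : Set (Fin m → ℝ)) (G : (Fin m → ℝ) → ℝ) : Prop :=
  IsOpen Ω ∧ Semialg Ω ∧ AnalyticOnNhd ℝ G Ω ∧ SemialgFun Ω G

/-- Nash maps on an arbitrary set `S`: all components are restrictions of Nash functions on open
semialgebraic sets containing `S`. -/
def NashMap {m n : ℕ} (S : Set (Fin m → ℝ)) (g : (Fin m → ℝ) → (Fin n → ℝ)) : Prop :=
  ∀ j, ∃ (Ω : Set (Fin m → ℝ)) (G : (Fin m → ℝ) → ℝ), S ⊆ Ω ∧ NashFun Ω G ∧ ∀ x ∈ S, g x j = G x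

/-- `T` is an `(𝒩, 0)`-approximation target space: for every locally compact semialgebraic set `S`
every continuous semialgebraic map `f : S → T` can be approximated by Nash maps `g : S → T` in the
strong topology. -/
def IsATS {n : ℕ} (T : Set (Fin n → ℝ)) : Prop :=
  ∀ (m : ℕ) (S : Set (Fin m → ℝ)), 1 ≤ m → S.Nonempty → Semialg S → LocallyCompactSpace S →
    ∀ f : (Fin m → ℝ) → (Fin n → ℝ), ContinuousOn f S → SemialgMap S f → Set.MapsTo f S T →
    ∀ ε : (Fin m → ℝ) → ℝ, ContinuousOn ε S → SemialgFun S ε → (∀ x ∈ S, 0 < ε x) →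
    ∃ g : (Fin m → ℝ) → (Fin n → ℝ), NashMap S g ∧ Set.MapsTo g S T ∧
      ∀ x ∈ S, Real.sqrt (∑ j, (g x j - f x j) ^ 2) < ε x

/-- `A` is connected by analytic paths: any two points are joined by a path in `A` defined on
`[0, 1]` which is analytic on an open interval around `[0, 1]`. -/
def ConnectedByAnalyticPaths {n : ℕ} (A : Set (Fin n → ℝ)) : Prop :=
  ∀ p ∈ A, ∀ q ∈ A, ∃ α : ℝ → (Fin n → ℝ), AnalyticOnNhd ℝ α (Set.Icc 0 1) ∧
    (∀ t ∈ Set.Icc (0 : ℝ) 1, α t ∈ A) ∧ α 0 = p ∧ α 1 = q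

/-- `T` is locally connected by analytic paths. -/
def LocallyConnectedByAnalyticPaths {n : ℕ} (T : Set (Fin n → ℝ)) : Prop :=
  ∀ x ∈ T, ∀ U : Set (Fin n → ℝ), IsOpen U → x ∈ U →
    ∃ W : Set (Fin n → ℝ), IsOpen W ∧ Semialg W ∧ x ∈ W ∧ W ⊆ U ∧
      ConnectedByAnalyticPaths (T ∩ W)

end Q49.NA
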