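import Mathlib

/-!
# An elliptic integral
-/

set_option autoImplicit false

namespace Q49.NA

open Filter Set Topology

/-- the integrand -/
noncomputable def w (s : ℝ) : ℝ := 1 / Real.sqrt (1 + s ^ 4)

theorem sq_pos' (s : ℝ) : 0 < Real.sqrt (1 + s ^ 4) := Real.sqrt_pos.2 (by positivity)

theorem w_pos (s : ℝ) : 0 < w s := one_div_pos.2 (sq_pos' s)

theorem w_cont : Continuous w := by
  unfold w
  exact continuous_const.div (by fun_prop) fun s => (sq_pos' s).ne'

/-- the elliptic integral -/
noncomputable def L (s : ℝ) : ℝ := ∫ t in (0 : ℝ)..s, w t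

theorem L_deriv (s : ℝ) : HasDerivAt L (w s) s :=
  intervalIntegral.integral_hasDerivAt_right (w_cont.intervalIntegrable _ _)
    (w_cont.stronglyMeasurableAtFilter _ _) w_cont.continuousAt

theorem L_cont : Continuous L := continuous_iff_continuousAt.2 fun s => (L_deriv s).continuousAt

theorem L_zero : L 0 = 0 := intervalIntegral.integral_same

theorem L_neg (s : ℝ) : L (-s) = - L s := by
  have h1 : ∀ x, HasDerivAt (fun s => L (-s) + L s) 0 x := by
    intro x
    have h2 : HasDerivAt (fun s => L (-s)) (w (-x) * (-1)) x :=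
      (L_deriv (-x)).comp x (hasDerivAt_neg x)
    have h3 := h2.add (L_deriv x)
    have h4 : w (-x) * (-1) + w x = 0 := by
      rw [w, w, Even.neg_pow (by decide)]
      ring
    rw [h4] at h3
    exact h3
  have h2 := is_const_of_deriv_eq_zero (fun x => (h1 x).differentiableAt) (fun x => (h1 x).deriv) s 0
  simp only [neg_zero, L_zero, add_zero] at h2
  linarith

theorem w_inv {s : ℝ} (hs : 0 < s) : w (1 / s) * (1 / s ^ 2) = w s := by
  have h1 : Real.sqrt (1 + (1 / s) ^ 4) = Real.sqrt (1 + s ^ 4) / s ^ 2 := by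
    rw [eq_div_iff (by positivity)]
    have h2 : (s ^ 2 : ℝ) = Real.sqrt (s ^ 4) := by
      rw [show s ^ 4 = (s ^ 2) ^ 2 by ring, Real.sqrt_sq (by positivity)]
    rw [h2, ← Real.sqrt_mul (by positivity)]
    congr 1
    field_simp
    ring
  have h3 := (sq_pos' s).ne'
  rw [w, w, h1]
  field_simp

/-- half of the period -/
noncomputable def Q : ℝ := 2 * L 1

theorem L_mono : StrictMono L := strictMono_of_deriv_pos fun s => by
  rw [(L_deriv s).deriv]; exact w_pos s

theorem Q_pos : 0 < Q := by
  have := L_mono (zero_lt_one (α := ℝ))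
  rw [L_zero] at this
  rw [Q]
  linarith

theorem L_inv {s : ℝ} (hs : 0 < s) : L s + L (1 / s) = Q := by
  have h1 : ∀ x ∈ Ioi (0 : ℝ), HasDerivAt (fun s => L s + L (1 / s)) 0 x := by
    intro x hx
    have h2 : HasDerivAt (fun s : ℝ => 1 / s) (-(1 / x ^ 2)) x := by
      have := hasDerivAt_inv (ne_of_gt hx : x ≠ 0)
      simp only [one_div]
      exact this
    have h3 := (L_deriv x).add ((L_deriv (1 / x)).comp x h2)
    have h4 : w x + w (1 / x) * (-(1 / x ^ 2)) = 0 := by
      rw [mul_neg, w_inv hx]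
      ring
    rw [h4] at h3
    exact h3
  have h2 : (fun s => L s + L (1 / s)) s = (fun s => L s + L (1 / s)) 1 := by
    refine (convex_Ioi (0 : ℝ)).is_const_of_fderivWithin_eq_zero (𝕜 := ℝ)
      (f := fun s => L s + L (1 / s)) ?_ ?_ (mem_Ioi.2 hs) (mem_Ioi.2 one_pos)
    · exact fun x hx => (h1 x hx).differentiableAt.differentiableWithinAt
    · intro x hx
      rw [fderivWithin_of_isOpen isOpen_Ioi hx]
      ext
      simpa using (h1 x hx).deriv
  have h3 : L s + L (1 / s) = L 1 + L (1 / 1) := h2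
  rw [h3, Q, one_div_one]
  ring

theorem L_inv_neg {s : ℝ} (hs : s < 0) : L s + L (1 / s) = -Q := by
  have h := L_inv (s := -s) (by linarith)
  rw [L_neg, one_div_neg_eq_neg_one_div, L_neg] at h
  linarith

/-- the multi-valued integral, as a function of the direction -/
noncomputable def Lam (u v : ℝ) : AddCircle (2 * Q) :=
  if v ≠ 0 then ((- L (u / v) : ℝ) : AddCircle (2 * Q)) else ((Q : ℝ) : AddCircle (2 * Q))

theorem Lam_of_v {u v : ℝ} (hv : v ≠ 0) : Lam u v = ((- L (u / v) : ℝ) : AddCircle (2 * Q)) :=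
  if_pos hv

theorem Lam_of_u {u v : ℝ} (hu : u ≠ 0) : Lam u v = ((L (v / u) - Q : ℝ) : AddCircle (2 * Q)) := by
  have hper : ∀ a b : ℝ, a - b = 2 * Q ∨ a - b = 0 →
      (a : AddCircle (2 * Q)) = (b : AddCircle (2 * Q)) := by
    intro a b h
    rcases h with h | h
    · have h2 : a = b + 2 * Q := by linarith
      rw [h2, AddCircle.coe_add_period]
    · have h2 : a = b := by linarith
      rw [h2]
  by_cases hv : v = 0
  · rw [Lam, if_neg (by rw [not_not]; exact hv), hv, zero_div, L_zero]
    refine hper _ _ (Or.inl ?_)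
    ring
  · rw [Lam_of_v hv]
    rcases lt_or_gt_of_ne (div_ne_zero hv hu) with h | h
    · have h1 := L_inv_neg h
      rw [one_div_div] at h1
      refine hper _ _ (Or.inl ?_)
      linarith
    · have h1 := L_inv h
      rw [one_div_div] at h1
      refine hper _ _ (Or.inr ?_)
      linarith

end Q49.NA
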